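import Pool.Agent.W2helper21.RF.Alg

/-!
# Polynomial-time identity testing for bounded-read formulas of arbitrary depth

We consider arithmetic formulas (binary trees of additions and multiplications) of arbitrary depth
and size in which every variable occurs in at most `k` leaves; a leaf is a polynomial in at most
`b` variables, given by its list of monomials.  There is no assumption of multilinearity: for
`k ≥ 2` the same variable may occur on both sides of a product, and the degrees are not bounded.

For fixed `k` and `b` we give a deterministic identity test with polynomially many operations for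
such formulas (which are given to the algorithm, i.e. this is the white-box model of the problem).
The algorithm `search` treats a list of formulas.  It goes through the subformulas from the leaves
to the roots, and keeps an integer point `pt` and the list `nz` of the subformulas which are known
to be nonzero; no one of these vanishes at `pt`.  For a new subformula `f` (a leaf, or a sum of two
nonzero formulas) it looks for a vector `w` with at most `b + mods k b 1` entries different from
zero, which are at most `N (N + 1)` (`N` is the total size), such that neither `f` nor a formula in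
`nz` vanishes at `pt + w`.  If there is such a vector then the algorithm moves to `pt + w` and puts
`f` on the list, and otherwise `f` is declared to be zero.  The theorem says that this is correct.
At the end one has a point at which no nonzero formula of the list vanishes.  This point is also
useful for functions of the formulas: if at most `T` of the formulas `f_1, …, f_s` of the list are
algebraically independent then a polynomial `Ψ (f_1, …, f_s)` of degree at most `D` is the zero
polynomial if and only if it vanishes at the points which differ from `pt` in at most `mods k b T`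
coordinates, by at most `D`.

The reason is the theorem `RF.rigid` in `Pool/Agent/W2helper21/RF/Rigid.lean`: if no subformula of
the formulas `f_1, …, f_T` (zero subformulas are removed) vanishes at the point `a` then
`Ψ (f_1, …, f_T)`, if it is not the zero polynomial, is not zero at a point which differs from `a`
in at most `mods k b T` coordinates.  (Parts of its proof are in `W2helper24/RF`, `W2helper98/RF`;
it uses the theorem on chains of matrices of `W2helper94/PIT`.)
-/

namespace Pool.Agent.Results.MP_e2be99_lc.BoundedReadAlgorithm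

open MvPolynomial
open Pool.Agent.W2helper21.RF (Fm)

/-- Arithmetic formulas over `K` in `n` variables: binary trees of additions and multiplications
whose leaves are polynomials, given by a list of pairs of a coefficient and a vector of
exponents. -/
inductive Formula (K : Type*) (n : ℕ)
  | leaf (p : List (K × (Fin n → ℕ)))
  | add (f g : Formula K n)
  | mul (f g : Formula K n)

namespace Formula

section

variable {K : Type*} {n : ℕ}

/-- the number of leaves in which the variable `i` occurs -/
def reads (i : Fin n) : Formula K n → ℕ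
  | leaf p => if ∃ t ∈ p, t.2 i ≠ 0 then 1 else 0
  | add f g => f.reads i + g.reads i
  | mul f g => f.reads i + g.reads i

/-- in every leaf occur at most `b` variables -/
def Local (b : ℕ) : Formula K n → Prop
  | leaf p => (Finset.univ.filter fun i => ∃ t ∈ p, t.2 i ≠ 0).card ≤ b
  | add f g => f.Local b ∧ g.Local b
  | mul f g => f.Local b ∧ g.Local b

/-- the size of a formula: the number of nodes, where a leaf counts in addition `1` plus its degree
for every monomial -/
def size : Formula K n → ℕ
  | leaf p => 1 + (p.map fun t => 1 + ∑ i, t.2 i).sum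
  | add f g => f.size + g.size + 1
  | mul f g => f.size + g.size + 1

end

variable {K : Type*} [Field K] {n : ℕ}

/-- the polynomial computed by a formula -/
noncomputable def poly : Formula K n → MvPolynomial (Fin n) K
  | leaf p => (p.map fun t => C t.1 * ∏ i, X i ^ t.2 i).sum
  | add f g => f.poly + g.poly
  | mul f g => f.poly * g.poly

/-- the value of a formula at an integer point, computed with at most `size` additions and
multiplications in `K` -/
def value (x : Fin n → ℕ) : Formula K n → K
  | leaf p => (p.map fun t => t.1 * ∏ i, (x i : K) ^ t.2 i).sum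
  | add f g => f.value x + g.value x
  | mul f g => f.value x * g.value x

theorem value_eq (x : Fin n → ℕ) (f : Formula K n) :
    f.value x = eval (fun i => (x i : K)) f.poly := by
  induction f with
  | leaf p =>
    rw [value, poly, map_list_sum, List.map_map]
    congr 1
    apply List.map_congr_left
    intro t _
    simp only [Function.comp_apply, map_mul, eval_C, map_prod, map_pow, eval_X]
  | add f g hf hg => rw [value, poly, map_add, hf, hg]
  | mul f g hf hg => rw [value, poly, map_mul, hf, hg]

theorem totalDegree_le (f : Formula K n) : f.poly.totalDegree ≤ f.size := by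
  induction f with
  | leaf p =>
    rw [poly, size]
    induction p with
    | nil => simp
    | cons t p ih =>
      rw [List.map_cons, List.sum_cons, List.map_cons, List.sum_cons]
      refine (totalDegree_add _ _).trans (max_le ?_ (ih.trans (by omega)))
      refine (totalDegree_mul _ _).trans ?_
      rw [totalDegree_C, Nat.zero_add]
      refine (totalDegree_finsetProd _ _).trans ?_
      have : ∑ i, (X i ^ t.2 i : MvPolynomial (Fin n) K).totalDegree ≤ ∑ i, t.2 i :=
        Finset.sum_le_sum fun i _ => by rw [totalDegree_X_pow]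
      omega
  | add f g hf hg =>
    rw [poly, size]
    exact (totalDegree_add _ _).trans (max_le (by omega) (by omega))
  | mul f g hf hg =>
    rw [poly, size]
    exact (totalDegree_mul _ _).trans (by omega)

theorem vars_leaf (p : List (K × (Fin n → ℕ))) :
    (leaf p).poly.vars ⊆ Finset.univ.filter fun i => ∃ t ∈ p, t.2 i ≠ 0 := by
  classical
  rw [poly]
  induction p with
  | nil => simp
  | cons t p ih =>
    rw [List.map_cons, List.sum_cons]
    refine (vars_add_subset _ _).trans (Finset.union_subset ?_ (ih.trans ?_))
    · refine (vars_mul _ _).trans (Finset.union_subset ?_ ?_)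
      · rw [vars_C]
        exact Finset.empty_subset _
      · refine (vars_prod _).trans ?_
        intro i hi
        rw [Finset.mem_biUnion] at hi
        obtain ⟨j, _, hj⟩ := hi
        by_cases h0 : t.2 j = 0
        · rw [h0, pow_zero, vars_one] at hj
          exact absurd hj (Finset.notMem_empty i)
        · have h1 := vars_pow _ _ hj
          rw [vars_X, Finset.mem_singleton] at h1
          rw [h1, Finset.mem_filter]
          exact ⟨Finset.mem_univ _, t, List.mem_cons_self, h0⟩
    · intro i hi
      rw [Finset.mem_filter] at hi ⊢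
      obtain ⟨_, t', ht', h'⟩ := hi
      exact ⟨Finset.mem_univ _, t', List.mem_cons_of_mem _ ht', h'⟩

/-- the formula of the helper files -/
noncomputable def toFm : Formula K n → Fm K
  | leaf p => Fm.leaf (rename Fin.val (leaf p).poly)
  | add f g => Fm.add f.toFm g.toFm
  | mul f g => Fm.mul f.toFm g.toFm

theorem toFm_poly (D : Formula K n) : D.toFm.poly = rename Fin.val D.poly := by
  induction D with
  | leaf p => rfl
  | add f g ihf ihg => simp only [toFm, poly, Fm.poly, ihf, ihg, map_add]
  | mul f g ihf ihg => simp only [toFm, poly, Fm.poly, ihf, ihg, map_mul]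

theorem toFm_loc {b : ℕ} (D : Formula K n) (h : D.Local b) : D.toFm.Loc b := by
  classical
  induction D with
  | leaf p =>
    exact (Finset.card_le_card (vars_rename _ _)).trans (Finset.card_image_le.trans
      ((Finset.card_le_card (vars_leaf p)).trans h))
  | add f g ihf ihg => exact ⟨ihf h.1, ihg h.2⟩
  | mul f g ihf ihg => exact ⟨ihf h.1, ihg h.2⟩

theorem toFm_vars (D : Formula K n) : ∀ u ∈ D.toFm.vars, u < n := by
  classical
  induction D with
  | leaf p =>
    intro u hu
    have h1 := vars_rename _ _ hu
    rw [Finset.mem_image] at h1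
    obtain ⟨j, _, rfl⟩ := h1
    exact j.2
  | add f g ihf ihg =>
    intro u hu
    rcases Finset.mem_union.mp hu with h | h
    · exact ihf u h
    · exact ihg u h
  | mul f g ihf ihg =>
    intro u hu
    rcases Finset.mem_union.mp hu with h | h
    · exact ihf u h
    · exact ihg u h

theorem toFm_rdc (D : Formula K n) (i : Fin n) : D.toFm.rdc i ≤ D.reads i := by
  classical
  induction D with
  | leaf p =>
    simp only [toFm, reads, Fm.rdc]
    by_cases h : (i : ℕ) ∈ (rename Fin.val (leaf p).poly : MvPolynomial ℕ K).vars
    · have h1 := vars_rename _ _ h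
      rw [Finset.mem_image] at h1
      obtain ⟨j, hj, hji⟩ := h1
      have h2 := vars_leaf p hj
      rw [Fin.ext hji, Finset.mem_filter] at h2
      rw [if_pos h, if_pos h2.2]
    · rw [if_neg h]
      exact Nat.zero_le _
  | add f g ihf ihg => exact Nat.add_le_add ihf ihg
  | mul f g ihf ihg => exact Nat.add_le_add ihf ihg

theorem toFm_rd {k : ℕ} {D : Formula K n} (hk : ∀ i, D.reads i ≤ k) (u : ℕ) :
    D.toFm.rdc u ≤ k := by
  by_cases hu : u < n
  · exact (D.toFm_rdc ⟨u, hu⟩).trans (hk ⟨u, hu⟩)
  · have h1 : ¬ 1 ≤ D.toFm.rdc u := fun h1 =>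
      hu (D.toFm_vars u ((Pool.Agent.W2helper98.RF.mem_vars D.toFm u).mpr h1))
    omega

end Formula

/-- all vectors which are obtained from the zero vector by at most `R` changes of one coordinate to
a value in `{0, …, B}` -/
def cands (n B : ℕ) : ℕ → List (Fin n → ℕ)
  | 0 => [fun _ => 0]
  | R + 1 => cands n B R ++ (cands n B R).flatMap fun w =>
      (List.finRange n).flatMap fun i => (List.range (B + 1)).map fun v => Function.update w i v

theorem length_cands (n B R : ℕ) : (cands n B R).length = (n * (B + 1) + 1) ^ R := by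
  induction R with
  | zero => rfl
  | succ R ih =>
    rw [cands, List.length_append, List.length_flatMap]
    have h : (fun w : Fin n → ℕ => ((List.finRange n).flatMap fun i =>
        (List.range (B + 1)).map fun v => Function.update w i v).length) =
        fun _ => n * (B + 1) := by
      funext w
      rw [List.length_flatMap]
      simp
    rw [h, List.map_const', List.sum_replicate, ih, smul_eq_mul]
    ring

theorem le_cands {n B R : ℕ} : ∀ w ∈ cands n B R, ∀ i, w i ≤ B := by
  induction R with
  | zero =>
    intro w hw i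
    rw [cands, List.mem_singleton] at hw
    rw [hw]
    exact Nat.zero_le _
  | succ R ih =>
    intro w hw i
    rw [cands, List.mem_append] at hw
    rcases hw with hw | hw
    · exact ih w hw i
    · rw [List.mem_flatMap] at hw
      obtain ⟨w', hw', hw⟩ := hw
      rw [List.mem_flatMap] at hw
      obtain ⟨j, _, hw⟩ := hw
      rw [List.mem_map] at hw
      obtain ⟨v, hv, rfl⟩ := hw
      rw [List.mem_range] at hv
      by_cases hij : i = j
      · subst hij
        rw [Function.update_self]
        omega
      · rw [Function.update_of_ne hij]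
        exact ih w' hw' i

theorem mem_cands {n B : ℕ} : ∀ {R : ℕ} {S : Finset (Fin n)} {w : Fin n → ℕ}, S.card ≤ R →
    (∀ i, w i ≤ B) → (∀ i, i ∉ S → w i = 0) → w ∈ cands n B R := by
  intro R
  induction R with
  | zero =>
    intro S w hS _ h0
    rw [cands, List.mem_singleton]
    funext i
    apply h0
    rw [Finset.card_eq_zero.mp (Nat.le_zero.mp hS)]
    exact Finset.notMem_empty i
  | succ R ih =>
    intro S w hS hB h0
    rw [cands, List.mem_append]
    rcases S.eq_empty_or_nonempty with rfl | ⟨i, hi⟩
    · left
      exact ih (S := ∅) (by simp) hB h0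
    · right
      rw [List.mem_flatMap]
      refine ⟨Function.update w i 0, ih (S := S.erase i) ?_ ?_ ?_, ?_⟩
      · rw [Finset.card_erase_of_mem hi]
        omega
      · intro j
        by_cases hj : j = i
        · rw [hj, Function.update_self]
          exact Nat.zero_le _
        · rw [Function.update_of_ne hj]
          exact hB j
      · intro j hj
        by_cases hji : j = i
        · rw [hji, Function.update_self]
        · rw [Function.update_of_ne hji]
          exact h0 j fun h => hj (Finset.mem_erase.mpr ⟨hji, h⟩)
      · rw [List.mem_flatMap]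
        refine ⟨i, List.mem_finRange i, ?_⟩
        rw [List.mem_map]
        refine ⟨w i, List.mem_range.mpr (Nat.lt_succ_of_le (hB i)), ?_⟩
        rw [Function.update_idem, Function.update_eq_self]

/-- The state of the algorithm: the current point, the list of the subformulas which were found to
be nonzero (no one of them vanishes at the current point) and the number of operations used. -/
structure State (K : Type*) (n : ℕ) where
  /-- the current point -/
  pt : Fin n → ℕ
  /-- the nonzero subformulas found so far -/
  nz : List (Formula K n)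
  /-- the number of additions and multiplications in `K` and of zero tests used so far -/
  ops : ℕ
  /-- (for the analysis only) the points at which formulas were evaluated so far -/
  pts : List (Fin n → ℕ)

section

variable {K : Type*} [Field K] [DecidableEq K] {n : ℕ}

/-- the number of operations for the evaluation of all formulas of a list at one point, with a test
whether the value is zero for every one of them -/
def weight (l : List (Formula K n)) : ℕ := (l.map fun q => q.size + 1).sum

/-- Test of the formula `f`: look in the list `C` for a vector `w` such that neither `f` nor one of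
the nonzero subformulas found before vanishes at the point `pt + w`.  If there is one then `f` is
not zero; move to the point `pt + w` and put `f` on the list.  Otherwise `f` is declared to be
zero. -/
def test (C : List (Fin n → ℕ)) (f : Formula K n) (s : State K n) : Bool × State K n :=
  match C.find? fun w =>
      (f :: s.nz).all fun q => decide (q.value (fun i => s.pt i + w i) ≠ 0) with
  | some w => (true, ⟨fun i => s.pt i + w i, f :: s.nz, s.ops + C.length * weight (f :: s.nz),
      (C.map fun w i => s.pt i + w i) ++ s.pts⟩)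
  | none => (false, ⟨s.pt, s.nz, s.ops + C.length * weight (f :: s.nz),
      (C.map fun w i => s.pt i + w i) ++ s.pts⟩)

/-- The algorithm, with candidate vectors `C`.  It treats the subformulas one after the other, from
the leaves to the root; the boolean says whether the formula is not zero. -/
def run (C : List (Fin n → ℕ)) : Formula K n → State K n → Bool × State K n
  | .leaf p, s => test C (.leaf p) s
  | .add f g, s =>
    let u := run C f s
    let v := run C g u.2
    if u.1 && v.1 then test C (.add f g) v.2 else (u.1 || v.1, v.2)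
  | .mul f g, s =>
    let u := run C f s
    let v := run C g u.2
    (u.1 && v.1, v.2)

omit [Field K] [DecidableEq K] in
theorem weight_cons (f : Formula K n) (l : List (Formula K n)) :
    weight (f :: l) = f.size + 1 + weight l := by
  unfold weight
  rw [List.map_cons, List.sum_cons]

theorem test_cases (C : List (Fin n → ℕ)) (f : Formula K n) (s : State K n) :
    (∃ w ∈ C, (∀ q ∈ f :: s.nz, q.value (fun i => s.pt i + w i) ≠ 0) ∧
      test C f s = (true,
        ⟨fun i => s.pt i + w i, f :: s.nz, s.ops + C.length * weight (f :: s.nz),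
          (C.map fun w i => s.pt i + w i) ++ s.pts⟩)) ∨
    ((∀ w ∈ C, ∃ q ∈ f :: s.nz, q.value (fun i => s.pt i + w i) = 0) ∧
      test C f s = (false, ⟨s.pt, s.nz, s.ops + C.length * weight (f :: s.nz),
        (C.map fun w i => s.pt i + w i) ++ s.pts⟩)) := by
  rcases h : C.find? (fun w =>
      (f :: s.nz).all fun q => decide (q.value (fun i => s.pt i + w i) ≠ 0)) with _ | w
  · right
    refine ⟨fun w hw => ?_, ?_⟩
    · have h1 := List.find?_eq_none.mp h w hw
      by_contra hcon
      push Not at hcon
      apply h1
      rw [List.all_eq_true]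
      intro q hq
      exact decide_eq_true (hcon q hq)
    · unfold test
      rw [h]
  · left
    refine ⟨w, List.mem_of_find?_eq_some h, ?_, ?_⟩
    · have h1 := List.find?_some h
      rw [List.all_eq_true] at h1
      intro q hq
      exact of_decide_eq_true (h1 q hq)
    · unfold test
      rw [h]

/-- what the algorithm preserves: no formula on the list vanishes at the current point -/
def Inv (s : State K n) : Prop := ∀ q ∈ s.nz, q.value s.pt ≠ 0

theorem test_inv {C : List (Fin n → ℕ)} {f : Formula K n} {s : State K n} (h : Inv s) :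
    Inv (test C f s).2 ∧ (∀ q ∈ s.nz, q ∈ (test C f s).2.nz) ∧
      ((test C f s).1 = true → f ∈ (test C f s).2.nz) := by
  rcases test_cases C f s with ⟨w, _, h1, h2⟩ | ⟨_, h2⟩
  · rw [h2]
    exact ⟨h1, fun q hq => List.mem_cons_of_mem _ hq, fun _ => List.mem_cons_self⟩
  · rw [h2]
    exact ⟨h, fun q hq => hq, fun h => absurd h (by simp)⟩

theorem run_inv {C : List (Fin n → ℕ)} : ∀ {f : Formula K n} {s : State K n}, Inv s →
    Inv (run C f s).2 ∧ ∀ q ∈ s.nz, q ∈ (run C f s).2.nz := by
  intro f
  induction f with
  | leaf p =>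
    intro s h
    rw [run]
    exact ⟨(test_inv h).1, (test_inv h).2.1⟩
  | add f g hf hg =>
    intro s h
    rw [run]
    have h1 := hf h
    have h2 := hg h1.1
    have h3 := test_inv (C := C) (f := .add f g) h2.1
    split_ifs
    · exact ⟨h3.1, fun q hq => h3.2.1 q (h2.2 q (h1.2 q hq))⟩
    · exact ⟨h2.1, fun q hq => h2.2 q (h1.2 q hq)⟩
  | mul f g hf hg =>
    intro s h
    rw [run]
    have h1 := hf h
    have h2 := hg h1.1
    exact ⟨h2.1, fun q hq => h2.2 q (h1.2 q hq)⟩

theorem test_res {C : List (Fin n → ℕ)} {B : ℕ} (hC : ∀ w ∈ C, ∀ i, w i ≤ B) (f : Formula K n)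
    (s : State K n) :
    weight (test C f s).2.nz ≤ weight s.nz + (f.size + 1) ∧
      (test C f s).2.ops ≤ s.ops + C.length * (weight s.nz + (f.size + 1)) ∧
      (∀ i, (test C f s).2.pt i ≤ s.pt i + B) ∧
      ∀ x ∈ (test C f s).2.pts, x ∈ s.pts ∨ ∀ i, x i ≤ s.pt i + B := by
  have key : ∀ x ∈ (C.map fun w i => s.pt i + w i) ++ s.pts,
      x ∈ s.pts ∨ ∀ i, x i ≤ s.pt i + B := by
    intro x hx
    rcases List.mem_append.mp hx with hx | hx
    · rw [List.mem_map] at hx
      obtain ⟨w, hw, rfl⟩ := hx
      exact Or.inr fun i => Nat.add_le_add_left (hC w hw i) _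
    · exact Or.inl hx
  rcases test_cases C f s with ⟨w, hw, _, h2⟩ | ⟨_, h2⟩
  · rw [h2]
    simp only [weight_cons]
    exact ⟨by omega, le_of_eq (by ring), fun i => Nat.add_le_add_left (hC w hw i) _, key⟩
  · rw [h2]
    simp only [weight_cons]
    exact ⟨by omega, le_of_eq (by ring), fun i => Nat.le_add_right _ _, key⟩

omit [Field K] [DecidableEq K] in
theorem size_pos (f : Formula K n) : 1 ≤ f.size := by
  cases f with
  | leaf p => rw [Formula.size]; omega
  | add f g => rw [Formula.size]; omega
  | mul f g => rw [Formula.size]; omega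

/-- what is used by the algorithm between the states `s` and `z`, for size `N` -/
def Res (c B N : ℕ) (s z : State K n) : Prop :=
  weight z.nz ≤ weight s.nz + N * (N + 1) ∧
    z.ops ≤ s.ops + c * (N * (weight s.nz + N * (N + 1))) ∧
    (∀ i, z.pt i ≤ s.pt i + N * B) ∧
    ∀ x ∈ z.pts, x ∈ s.pts ∨ ∀ i, x i ≤ s.pt i + N * B

omit [Field K] [DecidableEq K] in
theorem Res.refl (c B : ℕ) (s : State K n) : Res c B 0 s s :=
  ⟨Nat.le_add_right _ _, Nat.le_add_right _ _, fun _ => Nat.le_add_right _ _,
    fun _ hx => Or.inl hx⟩

omit [Field K] [DecidableEq K] in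
theorem Res.trans {c B M N : ℕ} {s u z : State K n} (h : Res c B M s u) (h' : Res c B N u z) :
    Res c B (M + N) s z := by
  obtain ⟨h1, h2, h3, h4⟩ := h
  obtain ⟨k1, k2, k3, k4⟩ := h'
  have hw : M * (M + 1) + N * (N + 1) ≤ (M + N) * (M + N + 1) := by
    nlinarith [Nat.zero_le (M * N), Nat.zero_le M, Nat.zero_le N]
  have e4 : (M + N) * B = M * B + N * B := by ring
  refine ⟨by omega, ?_, fun i => ?_, fun x hx => ?_⟩
  · have e1 : c * (M * (weight s.nz + M * (M + 1))) ≤
        c * (M * (weight s.nz + (M + N) * (M + N + 1))) :=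
      Nat.mul_le_mul_left _ (Nat.mul_le_mul_left _ (by omega))
    have e2 : c * (N * (weight u.nz + N * (N + 1))) ≤
        c * (N * (weight s.nz + (M + N) * (M + N + 1))) :=
      Nat.mul_le_mul_left _ (Nat.mul_le_mul_left _ (by omega))
    have e3 : c * ((M + N) * (weight s.nz + (M + N) * (M + N + 1))) =
        c * (M * (weight s.nz + (M + N) * (M + N + 1))) +
        c * (N * (weight s.nz + (M + N) * (M + N + 1))) := by ring
    omega
  · have e := h3 i
    have e' := k3 i
    omega
  · rcases k4 x hx with hx | hx
    · rcases h4 x hx with hx | hx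
      · exact Or.inl hx
      · refine Or.inr fun i => (hx i).trans ?_
        omega
    · refine Or.inr fun i => (hx i).trans ?_
      have e := h3 i
      omega

theorem Res.test {C : List (Fin n → ℕ)} {B : ℕ} (hC : ∀ w ∈ C, ∀ i, w i ≤ B) (f : Formula K n)
    {N : ℕ} (s u : State K n) (h : Res C.length B N s u) (hN : N + 1 ≤ f.size)
    (hN' : weight u.nz + (f.size + 1) ≤ weight s.nz + f.size * (f.size + 1)) :
    Res C.length B f.size s (test C f u).2 := by
  obtain ⟨h1, h2, h3, h4⟩ := h
  obtain ⟨k1, k2, k3, k4⟩ := test_res hC f u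
  have e4 : N * B + B ≤ f.size * B := by
    calc N * B + B = (N + 1) * B := by ring
      _ ≤ f.size * B := Nat.mul_le_mul_right _ hN
  refine ⟨by omega, ?_, fun i => ?_, fun x hx => ?_⟩
  · have e1 : C.length * (N * (weight s.nz + N * (N + 1))) ≤
        C.length * (N * (weight s.nz + f.size * (f.size + 1))) :=
      Nat.mul_le_mul_left _ (Nat.mul_le_mul_left _ (Nat.add_le_add_left
        (Nat.mul_le_mul (by omega) (by omega)) _))
    have e2 : C.length * (weight u.nz + (f.size + 1)) ≤
        C.length * (weight s.nz + f.size * (f.size + 1)) := Nat.mul_le_mul_left _ hN'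
    have e3 : C.length * ((N + 1) * (weight s.nz + f.size * (f.size + 1))) =
        C.length * (N * (weight s.nz + f.size * (f.size + 1))) +
        C.length * (weight s.nz + f.size * (f.size + 1)) := by ring
    have e5 : C.length * ((N + 1) * (weight s.nz + f.size * (f.size + 1))) ≤
        C.length * (f.size * (weight s.nz + f.size * (f.size + 1))) :=
      Nat.mul_le_mul_left _ (Nat.mul_le_mul_right _ hN)
    omega
  · have e := h3 i
    have e' := k3 i
    omega
  · rcases k4 x hx with hx | hx
    · rcases h4 x hx with hx | hx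
      · exact Or.inl hx
      · refine Or.inr fun i => (hx i).trans ?_
        omega
    · refine Or.inr fun i => (hx i).trans ?_
      have e := h3 i
      omega

omit [Field K] [DecidableEq K] in
theorem Res.mono {c B M N : ℕ} {s u : State K n} (h : Res c B M s u) (hMN : M ≤ N) :
    Res c B N s u := by
  obtain ⟨h1, h2, h3, h4⟩ := h
  have e1 : M * (M + 1) ≤ N * (N + 1) := Nat.mul_le_mul hMN (by omega)
  have e2 : M * B ≤ N * B := Nat.mul_le_mul_right _ hMN
  refine ⟨h1.trans (by omega), h2.trans (Nat.add_le_add_left (Nat.mul_le_mul_left _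
    (Nat.mul_le_mul hMN (by omega))) _), fun i => (h3 i).trans (by omega), fun x hx => ?_⟩
  rcases h4 x hx with hx | hx
  · exact Or.inl hx
  · exact Or.inr fun i => (hx i).trans (by omega)

theorem run_res {C : List (Fin n → ℕ)} {B : ℕ} (hC : ∀ w ∈ C, ∀ i, w i ≤ B) :
    ∀ (f : Formula K n) (s : State K n), Res C.length B f.size s (run C f s).2 := by
  intro f
  induction f with
  | leaf p =>
    intro s
    rw [run]
    have hp := size_pos (Formula.leaf p)
    have hle : (Formula.leaf p).size + 1 ≤
        (Formula.leaf p).size * ((Formula.leaf p).size + 1) := Nat.le_mul_of_pos_left _ hp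
    exact Res.test hC _ s s (Res.refl _ _ s) (by omega) (by omega)
  | add f g hf hg =>
    intro s
    have h := (hf s).trans (hg (run C f s).2)
    have hsz : (Formula.add f g).size = f.size + g.size + 1 := rfl
    rw [run]
    split_ifs
    · refine Res.test hC (.add f g) s _ h (by omega) ?_
      have h1 := h.1
      have h2 : (f.size + g.size) * (f.size + g.size + 1) + (f.size + g.size + 1 + 1) ≤
          (f.size + g.size + 1) * (f.size + g.size + 1 + 1) := by
        nlinarith [Nat.zero_le (f.size * g.size), Nat.zero_le f.size, Nat.zero_le g.size]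
      rw [hsz]
      omega
    · exact h.mono (by omega)
  | mul f g hf hg =>
    intro s
    have h := (hf s).trans (hg (run C f s).2)
    have hsz : (Formula.mul f g).size = f.size + g.size + 1 := rfl
    rw [run]
    exact h.mono (by omega)

end
section

variable {K : Type*} [Field K] [CharZero K] {n : ℕ}

/-- a common nonzero point of polynomials each of which is nonzero at a point which differs from
`a` only in the coordinates in `S` -/
theorem exists_cand {B R : ℕ} {a : Fin n → ℕ} {L : List (MvPolynomial (Fin n) K)}
    (hdeg : (L.map totalDegree).sum ≤ B) {S : Finset (Fin n)} (hS : S.card ≤ R)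
    (h : ∀ q ∈ L, ∃ x : Fin n → K, (∀ i, i ∉ S → x i = (a i : K)) ∧ eval x q ≠ 0) :
    ∃ w ∈ cands n B R, ∀ q ∈ L, eval (fun i => ((a i + w i : ℕ) : K)) q ≠ 0 := by
  classical
  let φ : Fin n → MvPolynomial (Fin n) K := fun i =>
    if i ∈ S then C (a i : K) + X i else C (a i : K)
  have hev : ∀ (v : Fin n → K) (q : MvPolynomial (Fin n) K), eval v (bind₁ φ q) =
      eval (fun i => if i ∈ S then (a i : K) + v i else (a i : K)) q := by
    intro v q
    rw [Pool.Agent.W2helper21.ROT.eval_bind]
    congr 2
    funext i
    by_cases hi : i ∈ S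
    · simp only [φ, if_pos hi, map_add, eval_C, eval_X]
    · simp only [φ, if_neg hi, eval_C]
  have hne : bind₁ φ L.prod ≠ 0 := by
    rw [map_list_prod]
    apply List.prod_ne_zero
    intro h0
    rw [List.mem_map] at h0
    obtain ⟨q, hq, hq0⟩ := h0
    obtain ⟨x, hx, hxq⟩ := h q hq
    apply hxq
    have h1 := hev (fun i => x i - a i) q
    rw [hq0, map_zero] at h1
    rw [h1]
    congr 2
    funext i
    by_cases hi : i ∈ S
    · rw [if_pos hi]
      ring
    · rw [if_neg hi, hx i hi]
  have hφ : ∀ i, (φ i).totalDegree ≤ 1 := by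
    intro i
    by_cases hi : i ∈ S
    · simp only [φ, if_pos hi]
      refine (totalDegree_add _ _).trans (max_le ?_ ?_)
      · rw [totalDegree_C]
        exact Nat.zero_le _
      · rw [totalDegree_X]
    · simp only [φ, if_neg hi]
      rw [totalDegree_C]
      exact Nat.zero_le _
  have hdeg' : (bind₁ φ L.prod).totalDegree ≤ B := by
    refine (Pool.Agent.W2helper21.FRO.totalDegree_bind φ 1 hφ _).trans ?_
    rw [Nat.one_mul]
    exact (totalDegree_list_prod L).trans hdeg
  let Z : Finset K := (Finset.range (B + 1)).image (fun t : ℕ => (t : K))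
  have hZ : Z.card = B + 1 := by
    rw [Finset.card_image_of_injective _ Nat.cast_injective, Finset.card_range]
  have hex : ∃ v : Fin n → K, (∀ i, v i ∈ Z) ∧ eval v (bind₁ φ L.prod) ≠ 0 := by
    by_contra hcon
    push Not at hcon
    apply hne
    apply eq_zero_of_eval_zero_at_prod_finset _ (fun _ => Z)
    · intro i
      rw [hZ]
      exact Nat.lt_succ_of_le ((degreeOf_le_totalDegree _ _).trans hdeg')
    · intro v hv
      exact hcon v hv
  obtain ⟨v, hv, hvne⟩ := hex
  have hv' : ∀ i, ∃ t : ℕ, t ≤ B ∧ v i = (t : K) := by
    intro i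
    obtain ⟨t, ht, h⟩ := Finset.mem_image.mp (hv i)
    exact ⟨t, Nat.lt_succ_iff.mp (Finset.mem_range.mp ht), h.symm⟩
  choose t ht hvt using hv'
  refine ⟨fun i => if i ∈ S then t i else 0, mem_cands hS (fun i => ?_) (fun i hi => if_neg hi),
    fun q hq h0 => ?_⟩
  · show (if i ∈ S then t i else 0) ≤ B
    split_ifs
    · exact ht i
    · exact Nat.zero_le _
  · apply hvne
    have e : eval v (bind₁ φ q) = 0 := by
      rw [hev, ← h0]
      congr 2
      funext i
      by_cases hi : i ∈ S
      · simp only [if_pos hi]
        rw [hvt i]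
        push_cast
        ring
      · simp only [if_neg hi]
        push_cast
        ring
    rw [map_list_prod, map_list_prod]
    apply List.prod_eq_zero
    rw [List.mem_map]
    exact ⟨bind₁ φ q, List.mem_map.mpr ⟨q, hq, rfl⟩, e⟩

variable [DecidableEq K]

omit [CharZero K] [DecidableEq K] in
theorem degs_le (l : List (Formula K n)) :
    ((l.map Formula.poly).map totalDegree).sum ≤ weight l := by
  induction l with
  | nil => simp
  | cons f l ih =>
    rw [List.map_cons, List.map_cons, List.sum_cons, weight_cons]
    have := f.totalDegree_le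
    omega

/-- a test recognises a nonzero formula -/
theorem test_complete {B R : ℕ} {f : Formula K n} {s : State K n} (hs : Inv s)
    (hB : weight (f :: s.nz) ≤ B) {S : Finset (Fin n)} (hS : S.card ≤ R)
    (h : ∃ x : Fin n → K, (∀ i, i ∉ S → x i = (s.pt i : K)) ∧ eval x f.poly ≠ 0) :
    (test (cands n B R) f s).1 = true := by
  rcases test_cases (cands n B R) f s with ⟨w, _, _, h2⟩ | ⟨h1, _⟩
  · rw [h2]
  · exfalso
    obtain ⟨w, hw, hw'⟩ := exists_cand (a := s.pt) (L := (f :: s.nz).map Formula.poly)
      ((degs_le _).trans hB) hS (by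
        intro q hq
        rw [List.mem_map] at hq
        obtain ⟨g, hg, rfl⟩ := hq
        rcases List.mem_cons.mp hg with rfl | hg
        · exact h
        · refine ⟨fun i => (s.pt i : K), fun i _ => rfl, ?_⟩
          rw [← Formula.value_eq]
          exact hs g hg)
    obtain ⟨q, hq, hq0⟩ := h1 w hw
    apply hw' q.poly (List.mem_map.mpr ⟨q, hq, rfl⟩)
    rw [← Formula.value_eq]
    exact hq0

omit [CharZero K] in
theorem test_sound {C : List (Fin n → ℕ)} {f : Formula K n} {s : State K n}
    (h : (test C f s).1 = true) : f.poly ≠ 0 := by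
  rcases test_cases C f s with ⟨w, _, h1, _⟩ | ⟨_, h2⟩
  · intro h0
    apply h1 f List.mem_cons_self
    rw [Formula.value_eq, h0, map_zero]
  · rw [h2] at h
    exact absurd h (by simp)

theorem run_cor {k b B R : ℕ} (hb : b ≤ R) (hR : Pool.Agent.W2helper21.RF.Rn k b 1 ≤ R) :
    ∀ (f : Formula K n) (s : State K n), (∀ i, f.reads i ≤ k) → f.Local b → Inv s →
    weight s.nz + f.size * (f.size + 1) ≤ B →
    ((run (cands n B R) f s).1 = true ↔ f.poly ≠ 0) ∧
    (f.poly ≠ 0 → ∃ D : Fm K, D.poly = rename Fin.val f.poly ∧ D.Loc b ∧
      (∀ u, D.rdc u ≤ f.toFm.rdc u) ∧ (∀ u ∈ D.vars, u < n) ∧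
      ∀ x : ℕ → K, (∀ q ∈ (run (cands n B R) f s).2.nz,
        eval (fun i : Fin n => x i) q.poly ≠ 0) → D.Good x) := by
  have hC : ∀ w ∈ cands n B R, ∀ i, w i ≤ B := le_cands
  intro f
  induction f with
  | leaf p =>
    intro s hk hloc hs hB
    rw [run]
    have hiff : (test (cands n B R) (.leaf p) s).1 = true ↔ (Formula.leaf p).poly ≠ 0 := by
      refine ⟨test_sound, fun hne => ?_⟩
      obtain ⟨x, hx⟩ : ∃ x : Fin n → K, eval x (Formula.leaf p).poly ≠ 0 := by
        by_contra hcon
        push Not at hcon
        exact hne (MvPolynomial.funext fun x => by rw [hcon x, map_zero])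
      refine test_complete hs ?_ (S := (Formula.leaf p).poly.vars)
        (((Finset.card_le_card (Formula.vars_leaf p)).trans hloc).trans hb)
        ⟨fun i => if i ∈ (Formula.leaf p).poly.vars then x i else (s.pt i : K),
          fun i hi => if_neg hi, ?_⟩
      · rw [weight_cons]
        have hp := size_pos (Formula.leaf p)
        have hle : (Formula.leaf p).size + 1 ≤
            (Formula.leaf p).size * ((Formula.leaf p).size + 1) := Nat.le_mul_of_pos_left _ hp
        omega
      · intro h0
        apply hx
        rw [← h0]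
        apply eval₂Hom_congr' rfl (fun i hi _ => ?_) rfl
        rw [if_pos hi]
    refine ⟨hiff, fun hne => ⟨(Formula.leaf p).toFm, Formula.toFm_poly _, Formula.toFm_loc _ hloc,
      fun u => le_rfl, Formula.toFm_vars _, fun x hx => ?_⟩⟩
    have h1 := hx _ ((test_inv hs).2.2 (hiff.mpr hne))
    show eval x (rename Fin.val (Formula.leaf p).poly) ≠ 0
    rw [Pool.Agent.W2helper21.RF.eval_ren]
    exact h1
  | add f g hf hg =>
    intro s hk hloc hs hB
    have hsz : (Formula.add f g).size = f.size + g.size + 1 := rfl
    have hB' : f.size * (f.size + 1) + g.size * (g.size + 1) + (f.size + g.size + 1 + 1) ≤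
        (f.size + g.size + 1) * (f.size + g.size + 1 + 1) := by
      nlinarith [Nat.zero_le (f.size * g.size), Nat.zero_le f.size, Nat.zero_le g.size]
    rw [hsz] at hB
    have hI1 := run_inv (C := cands n B R) (f := f) hs
    have hI2 := run_inv (C := cands n B R) (f := g) hI1.1
    have hr1 := (run_res hC f s).1
    have hr2 := (run_res hC g (run (cands n B R) f s).2).1
    have F1 := hf s (fun i => (Nat.le_add_right _ _).trans (hk i)) hloc.1 hs (by omega)
    have G1 := hg (run (cands n B R) f s).2 (fun i => (Nat.le_add_left _ _).trans (hk i)) hloc.2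
      hI1.1 (by omega)
    rw [run]
    by_cases hf0 : f.poly = 0
    · have hu : (run (cands n B R) f s).1 = false := by
        rw [← Bool.not_eq_true, F1.1]
        exact fun h => h hf0
      have hp : (Formula.add f g).poly = g.poly := by rw [Formula.poly, hf0, zero_add]
      rw [hp, hu, Bool.false_and, if_neg Bool.false_ne_true, Bool.false_or]
      refine ⟨G1.1, fun hne => ?_⟩
      obtain ⟨D, h1, h2, h3, h4, h5⟩ := G1.2 hne
      exact ⟨D, h1, h2, fun u => (h3 u).trans (Nat.le_add_left _ _), h4, h5⟩
    · by_cases hg0 : g.poly = 0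
      · have hv : (run (cands n B R) g (run (cands n B R) f s).2).1 = false := by
          rw [← Bool.not_eq_true, G1.1]
          exact fun h => h hg0
        have hp : (Formula.add f g).poly = f.poly := by rw [Formula.poly, hg0, add_zero]
        rw [hp, hv, Bool.and_false, if_neg Bool.false_ne_true, Bool.or_false]
        refine ⟨F1.1, fun hne => ?_⟩
        obtain ⟨D, h1, h2, h3, h4, h5⟩ := F1.2 hne
        exact ⟨D, h1, h2, fun u => (h3 u).trans (Nat.le_add_right _ _), h4,
          fun x hx => h5 x fun q hq => hx q (hI2.2 q hq)⟩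
      · have hu : (run (cands n B R) f s).1 = true := F1.1.mpr hf0
        have hv : (run (cands n B R) g (run (cands n B R) f s).2).1 = true := G1.1.mpr hg0
        rw [hu, hv, Bool.and_true, if_pos rfl]
        obtain ⟨D1, h1, h2, h3, h4, h5⟩ := F1.2 hf0
        obtain ⟨D2, k1, k2, k3, k4, k5⟩ := G1.2 hg0
        generalize run (cands n B R) g (run (cands n B R) f s).2 = v at *
        have hI3 := test_inv (C := cands n B R) (f := .add f g) hI2.1
        have hpol : (Fm.add D1 D2).poly = rename Fin.val (Formula.add f g).poly := by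
          rw [Fm.poly, h1, k1, Formula.poly, map_add]
        have hvars : ∀ u ∈ (Fm.add D1 D2).vars, u < n := by
          intro u hu
          rcases Finset.mem_union.mp hu with h | h
          · exact h4 u h
          · exact k4 u h
        have hrdc : ∀ u, (Fm.add D1 D2).rdc u ≤ (Formula.add f g).toFm.rdc u := fun u =>
          Nat.add_le_add (h3 u) (k3 u)
        have hiff : (test (cands n B R) (.add f g) v.2).1 = true ↔
            (Formula.add f g).poly ≠ 0 := by
          refine ⟨test_sound, fun hne => ?_⟩
          have hext : ∀ q : Formula K n, q ∈ v.2.nz →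
              eval (fun i : Fin n => (fun l : ℕ => if h : l < n then ((v.2.pt ⟨l, h⟩ : ℕ) : K)
                else 0) i) q.poly ≠ 0 := by
            intro q hq h0
            apply hI2.1 q hq
            rw [Formula.value_eq, ← h0]
            congr 2
            funext i
            simp
          obtain ⟨x, ⟨S, hS, hx⟩, hxne⟩ := Pool.Agent.W2helper21.RF.rigid_add (k := k) (b := b)
            (n := n) (f := D1) (g := D2) ⟨h2, k2⟩
            (fun u => (hrdc u).trans (Formula.toFm_rd hk u)) hvars
            (a := fun l : ℕ => if h : l < n then ((v.2.pt ⟨l, h⟩ : ℕ) : K) else 0)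
            (h5 _ fun q hq => hext q (hI2.2 q hq)) (k5 _ hext) (by
              rw [hpol]
              intro h0
              exact hne ((rename_injective _ Fin.val_injective) (h0.trans (map_zero _).symm)))
          classical
          refine test_complete hI2.1 ?_ (S := Finset.univ.filter fun i : Fin n => (i : ℕ) ∈ S)
            ((Finset.card_le_card_of_injOn (fun i : Fin n => (i : ℕ)) (fun i hi => ?_)
              (fun i _ j _ h => Fin.ext h)).trans (hS.trans hR))
            ⟨fun i => x i, fun i hi => ?_, ?_⟩
          · rw [weight_cons, hsz]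
            omega
          · exact (Finset.mem_filter.mp hi).2
          · have h6 : (i : ℕ) ∉ S := fun h => hi (Finset.mem_filter.mpr ⟨Finset.mem_univ _, h⟩)
            show x i = _
            rw [hx i h6]
            simp
          · rw [hpol, Pool.Agent.W2helper21.RF.eval_ren] at hxne
            exact hxne
        refine ⟨hiff, fun hne => ⟨Fm.add D1 D2, hpol, ⟨h2, k2⟩, hrdc, hvars, fun x hx =>
          ⟨h5 x fun q hq => hx q (hI3.2.1 q (hI2.2 q hq)),
            k5 x fun q hq => hx q (hI3.2.1 q hq), ?_⟩⟩⟩
        have h6 := hx _ (hI3.2.2 (hiff.mpr hne))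
        rw [← Pool.Agent.W2helper21.RF.eval_ren, ← hpol] at h6
        exact h6
  | mul f g hf hg =>
    intro s hk hloc hs hB
    have hsz : (Formula.mul f g).size = f.size + g.size + 1 := rfl
    have hB' : f.size * (f.size + 1) + g.size * (g.size + 1) + (f.size + g.size + 1 + 1) ≤
        (f.size + g.size + 1) * (f.size + g.size + 1 + 1) := by
      nlinarith [Nat.zero_le (f.size * g.size), Nat.zero_le f.size, Nat.zero_le g.size]
    rw [hsz] at hB
    have hI1 := run_inv (C := cands n B R) (f := f) hs
    have hI2 := run_inv (C := cands n B R) (f := g) hI1.1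
    have hr1 := (run_res hC f s).1
    have F1 := hf s (fun i => (Nat.le_add_right _ _).trans (hk i)) hloc.1 hs (by omega)
    have G1 := hg (run (cands n B R) f s).2 (fun i => (Nat.le_add_left _ _).trans (hk i)) hloc.2
      hI1.1 (by omega)
    rw [run]
    refine ⟨?_, fun hne => ?_⟩
    · rw [Formula.poly, mul_ne_zero_iff, ← F1.1, ← G1.1, Bool.and_eq_true]
    · rw [Formula.poly, mul_ne_zero_iff] at hne
      obtain ⟨D1, h1, h2, h3, h4, h5⟩ := F1.2 hne.1
      obtain ⟨D2, k1, k2, k3, k4, k5⟩ := G1.2 hne.2
      refine ⟨Fm.mul D1 D2, ?_, ⟨h2, k2⟩, fun u => Nat.add_le_add (h3 u) (k3 u), fun u hu => ?_,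
        fun x hx => ⟨h5 x fun q hq => hx q (hI2.2 q hq), k5 x hx⟩⟩
      · rw [Fm.poly, h1, k1, Formula.poly, map_mul]
      · rcases Finset.mem_union.mp hu with h | h
        · exact h4 u h
        · exact k4 u h

end

/-- the sum of the sizes of the formulas of a list -/
def total {K : Type*} {n : ℕ} (L : List (Formula K n)) : ℕ := (L.map Formula.size).sum

section

variable {K : Type*} [Field K] [DecidableEq K] {n : ℕ}

/-- the algorithm, applied to one formula of a list after the other -/
def runAll (C : List (Fin n → ℕ)) : List (Formula K n) → State K n → State K n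
  | [], s => s
  | f :: L, s => runAll C L (run C f s).2

theorem runAll_inv {C : List (Fin n → ℕ)} : ∀ {L : List (Formula K n)} {s : State K n}, Inv s →
    Inv (runAll C L s) ∧ ∀ q ∈ s.nz, q ∈ (runAll C L s).nz := by
  intro L
  induction L with
  | nil => exact fun {s} h => ⟨h, fun q hq => hq⟩
  | cons f L ih =>
    intro s h
    rw [runAll]
    have h1 := run_inv (C := C) (f := f) h
    have h2 := ih h1.1
    exact ⟨h2.1, fun q hq => h2.2 q (h1.2 q hq)⟩

omit [Field K] [DecidableEq K] in
theorem total_cons (f : Formula K n) (L : List (Formula K n)) :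
    total (f :: L) = f.size + total L := by
  unfold total
  rw [List.map_cons, List.sum_cons]

theorem runAll_res {C : List (Fin n → ℕ)} {B : ℕ} (hC : ∀ w ∈ C, ∀ i, w i ≤ B) :
    ∀ (L : List (Formula K n)) (s : State K n), Res C.length B (total L) s (runAll C L s) := by
  intro L
  induction L with
  | nil => exact fun s => Res.refl _ _ s
  | cons f L ih =>
    intro s
    rw [runAll, total_cons]
    exact (run_res hC f s).trans (ih _)

variable [CharZero K]

theorem runAll_cor {k b B R : ℕ} (hb : b ≤ R) (hR : Pool.Agent.W2helper21.RF.Rn k b 1 ≤ R) :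
    ∀ (L : List (Formula K n)) (s : State K n), (∀ f ∈ L, ∀ i, f.reads i ≤ k) →
    (∀ f ∈ L, f.Local b) → Inv s → weight s.nz + total L * (total L + 1) ≤ B →
    ∀ f ∈ L, f.poly ≠ 0 → ∃ D : Fm K, D.poly = rename Fin.val f.poly ∧ D.Loc b ∧
      (∀ u, D.rdc u ≤ f.toFm.rdc u) ∧ (∀ u ∈ D.vars, u < n) ∧
      ∀ x : ℕ → K, (∀ q ∈ (runAll (cands n B R) L s).nz,
        eval (fun i : Fin n => x i) q.poly ≠ 0) → D.Good x := by
  intro L
  induction L with
  | nil =>
    intro s _ _ _ _ f hf
    exact absurd hf List.not_mem_nil
  | cons f L ih =>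
    intro s hk hloc hs hB g hg hne
    rw [runAll]
    have hC : ∀ w ∈ cands n B R, ∀ i, w i ≤ B := le_cands
    have hN := total_cons f L
    have hw : f.size * (f.size + 1) + total L * (total L + 1) ≤
        total (f :: L) * (total (f :: L) + 1) := by
      rw [hN]
      nlinarith [Nat.zero_le (f.size * total L), Nat.zero_le f.size, Nat.zero_le (total L)]
    have h1 := run_inv (C := cands n B R) (f := f) hs
    have h2 := runAll_inv (C := cands n B R) (L := L) h1.1
    have h3 := (run_res hC f s).1
    rcases List.mem_cons.mp hg with rfl | hg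
    · obtain ⟨D, k1, k2, k3, k4, k5⟩ := (run_cor (B := B) hb hR g s (hk g List.mem_cons_self)
        (hloc g List.mem_cons_self) hs (by omega)).2 hne
      exact ⟨D, k1, k2, k3, k4, fun x hx => k5 x fun q hq => hx q (h2.2 q hq)⟩
    · exact ih (run (cands n B R) f s).2 (fun f' hf' => hk f' (List.mem_cons_of_mem _ hf'))
        (fun f' hf' => hloc f' (List.mem_cons_of_mem _ hf')) h1.1 (by omega) g hg hne

end

/-- At most `T` of the polynomials `p_i` are algebraically independent. -/
def TrdegLE {K : Type*} [Field K] {n s : ℕ} (T : ℕ) (p : Fin s → MvPolynomial (Fin n) K) : Prop :=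
  ∀ I : Finset (Fin s), AlgebraicIndependent K (fun i : I => p i) → I.card ≤ T

/-- the number of variables among which one finds `s` variables for which a path with read
number `k` is regular -/
def regSize : ℕ → ℕ → ℕ
  | 0, s => s + 1
  | k + 1, s => s * s * regSize k (regSize k s) + 1

/-- the number of variables among which one finds `s` variables for which a formula with `r` reads
has a bounded structure -/
def selSize (k b : ℕ) : ℕ → ℕ → ℕ
  | 0, s => regSize k s
  | r + 1, s =>
      regSize k s * (k * ((b + 1) * 2 ^ (regSize k ((selSize k b r)^[5] s) *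
        (k * ((selSize k b r)^[5] s + 1) + 1))) + 1) +
      (b + 1) * 2 ^ (regSize k ((selSize k b r)^[5] s) * (k * ((selSize k b r)^[5] s + 1) + 1)) +
      regSize k ((selSize k b r)^[5] s) * (k * ((selSize k b r)^[5] s + 1) + 1) +
      (selSize k b r)^[5] s

/-- the width of the chain for a regular path -/
def pathWidth : ℕ → ℕ
  | 0 => 2
  | k + 1 => pathWidth k * pathWidth k * 2

/-- the width of the chain for a formula with a structure of depth `m` -/
def formWidth (k : ℕ) : ℕ → ℕ
  | 0 => pathWidth k
  | m + 1 => 4 * (formWidth k m * formWidth k m * formWidth k m) + 1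

/-- the length from which functions of `T` aligned chains of width `c` are rigid -/
def rigidLength (c T : ℕ) : ℕ :=
  T + (T + 1) * (((c * T) ^ T * T.factorial + 1) ^ (c * T) * 2) + 1

/-- the number of modified coordinates for functions of `T` formulas -/
def mods (k b T : ℕ) : ℕ := (selSize k b k)^[T] (rigidLength (formWidth k (2 * k)) T)

theorem regSize_eq : ∀ k s, regSize k s = Pool.Agent.W2helper21.RK.Bk k s := by
  intro k
  induction k with
  | zero => exact fun _ => rfl
  | succ k ih =>
    intro s
    simp only [regSize, Pool.Agent.W2helper21.RK.Bk, ih]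

theorem selSize_eq (k b : ℕ) : ∀ r s, selSize k b r s = Pool.Agent.W2helper21.RF.Phi k b r s := by
  intro r
  induction r with
  | zero => exact fun s => regSize_eq k s
  | succ r ih =>
    intro s
    have h : selSize k b r = Pool.Agent.W2helper21.RF.Phi k b r := funext ih
    simp only [selSize, Pool.Agent.W2helper21.RF.Phi, h, regSize_eq]

theorem pathWidth_eq : ∀ k, pathWidth k = Pool.Agent.W2helper21.RK.Cd 2 k := by
  intro k
  induction k with
  | zero => rfl
  | succ k ih => simp only [pathWidth, Pool.Agent.W2helper21.RK.Cd, ih]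

theorem formWidth_eq (k : ℕ) : ∀ m, formWidth k m = Pool.Agent.W2helper21.RF.Cz k m := by
  intro m
  induction m with
  | zero => exact pathWidth_eq k
  | succ m ih => simp only [formWidth, Pool.Agent.W2helper21.RF.Cz, ih]

theorem mods_eq (k b T : ℕ) : mods k b T = Pool.Agent.W2helper21.RF.Rn k b T := by
  have h : selSize k b k = Pool.Agent.W2helper21.RF.Phi k b k := funext (selSize_eq k b k)
  unfold mods Pool.Agent.W2helper21.RF.Rn
  rw [h, formWidth_eq]
  rfl

/-- **The algorithm** for a list `L` of formulas of total size `N`: the candidates are all vectors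
with at most `b + mods k b 1` entries different from zero, which are at most `N (N + 1)`. -/
def search {K : Type*} [Field K] [DecidableEq K] {n : ℕ} (k b : ℕ) (L : List (Formula K n)) :
    State K n :=
  runAll (cands n (total L * (total L + 1)) (b + mods k b 1)) L ⟨fun _ => 0, [], 0, []⟩

/-- All coefficients of the formula are quotients `a / e` of integers with `|a| ≤ M` and
`1 ≤ e ≤ M`. -/
def Formula.Height {K : Type*} [Field K] {n : ℕ} (M : ℕ) : Formula K n → Prop
  | .leaf p => ∀ t ∈ p, ∃ (a : ℤ) (e : ℕ), |a| ≤ M ∧ 1 ≤ e ∧ e ≤ M ∧ t.1 = a / e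
  | .add f g => f.Height M ∧ g.Height M
  | .mul f g => f.Height M ∧ g.Height M

theorem frac_add (K : Type*) [Field K] [CharZero K] {a1 a2 : ℤ} {e1 e2 U1 U2 : ℕ}
    (h1 : |a1| ≤ (U1 : ℤ)) (h1' : 1 ≤ e1) (h1'' : e1 ≤ U1) (h2 : |a2| ≤ (U2 : ℤ)) (h2' : 1 ≤ e2)
    (h2'' : e2 ≤ U2) : ∃ (a : ℤ) (e : ℕ), |a| ≤ ((2 * U1 * U2 : ℕ) : ℤ) ∧ 1 ≤ e ∧
      e ≤ 2 * U1 * U2 ∧ (a1 / e1 + a2 / e2 : K) = a / e := by
  refine ⟨a1 * e2 + a2 * e1, e1 * e2, ?_, Nat.mul_pos h1' h2', ?_, ?_⟩
  · refine (abs_add_le _ _).trans ?_
    rw [abs_mul, abs_mul, Nat.abs_cast, Nat.abs_cast]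
    have i1 : |a1| * (e2 : ℤ) ≤ U1 * U2 :=
      mul_le_mul h1 (by exact_mod_cast h2'') (by positivity) (by positivity)
    have i2 : |a2| * (e1 : ℤ) ≤ U2 * U1 :=
      mul_le_mul h2 (by exact_mod_cast h1'') (by positivity) (by positivity)
    push_cast
    linarith
  · have := Nat.mul_le_mul h1'' h2''
    calc e1 * e2 ≤ U1 * U2 := this
      _ ≤ 2 * U1 * U2 := by rw [Nat.mul_assoc]; omega
  · have i1 : (e1 : K) ≠ 0 := by exact_mod_cast (by omega : e1 ≠ 0)
    have i2 : (e2 : K) ≠ 0 := by exact_mod_cast (by omega : e2 ≠ 0)
    push_cast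
    field_simp

/-- bit size of the numbers in the course of the computation -/
theorem height_value {K : Type*} [Field K] [CharZero K] {n : ℕ} {M X : ℕ} (hM : 1 ≤ M)
    (hX : 1 ≤ X) {x : Fin n → ℕ} (hx : ∀ i, x i ≤ X) : ∀ f : Formula K n, f.Height M →
    ∃ (a : ℤ) (e : ℕ), |a| ≤ (((2 * M * X) ^ f.size : ℕ) : ℤ) ∧ 1 ≤ e ∧
      e ≤ (2 * M * X) ^ f.size ∧ f.value x = a / e := by
  have hA : 2 ≤ 2 * M * X := by
    calc 2 = 2 * 1 * 1 := rfl
      _ ≤ 2 * M * X := Nat.mul_le_mul (Nat.mul_le_mul_left _ hM) hX
  intro f
  induction f with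
  | leaf p =>
    intro h
    have key : ∀ p : List (K × (Fin n → ℕ)),
        (∀ t ∈ p, ∃ (a : ℤ) (e : ℕ), |a| ≤ (M : ℤ) ∧ 1 ≤ e ∧ e ≤ M ∧ t.1 = a / e) →
        ∃ (a : ℤ) (e : ℕ),
          |a| ≤ (((2 * M * X) ^ (p.map fun t => 1 + ∑ i, t.2 i).sum : ℕ) : ℤ) ∧ 1 ≤ e ∧
          e ≤ (2 * M * X) ^ (p.map fun t => 1 + ∑ i, t.2 i).sum ∧
          (p.map fun t => t.1 * ∏ i, (x i : K) ^ t.2 i).sum = a / e := by
      intro p
      induction p with
      | nil =>
        intro _
        exact ⟨0, 1, by simp, le_rfl, by simp, by simp⟩
      | cons t p ih =>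
        intro hp
        obtain ⟨a2, e2, j1, j2, j3, j4⟩ := ih fun t' ht' => hp t' (List.mem_cons_of_mem _ ht')
        obtain ⟨a1, e1, i1, i2, i3, i4⟩ := hp t List.mem_cons_self
        have hP : ∏ i, x i ^ t.2 i ≤ X ^ ∑ i, t.2 i := by
          rw [← Finset.prod_pow_eq_pow_sum]
          exact Finset.prod_le_prod' fun i _ => Nat.pow_le_pow_left (hx i) _
        have hX1 : 1 ≤ X ^ ∑ i, t.2 i := Nat.one_le_pow _ _ hX
        obtain ⟨a, e, l1, l2, l3, l4⟩ := frac_add K (a1 := a1 * ((∏ i, x i ^ t.2 i : ℕ) : ℤ))
          (e1 := e1) (U1 := M * X ^ ∑ i, t.2 i) (a2 := a2) (e2 := e2)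
          (by
            rw [abs_mul, Nat.abs_cast]
            push_cast
            refine mul_le_mul i1 ?_ (by positivity) (by positivity)
            exact_mod_cast hP) i2
          (i3.trans (Nat.le_mul_of_pos_right _ hX1)) j1 j2 j3
        have hle : 2 * (M * X ^ ∑ i, t.2 i) * (2 * M * X) ^
            (p.map fun t => 1 + ∑ i, t.2 i).sum ≤
            (2 * M * X) ^ ((t :: p).map fun t => 1 + ∑ i, t.2 i).sum := by
          rw [List.map_cons, List.sum_cons, pow_add]
          refine Nat.mul_le_mul_right _ ?_
          rw [pow_add, pow_one]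
          calc 2 * (M * X ^ ∑ i, t.2 i) = 2 * M * 1 * X ^ ∑ i, t.2 i := by ring
            _ ≤ 2 * M * X * (2 * M * X) ^ ∑ i, t.2 i := by
                refine Nat.mul_le_mul (Nat.mul_le_mul_left _ hX) (Nat.pow_le_pow_left ?_ _)
                exact Nat.le_mul_of_pos_left _ (by omega)
        refine ⟨a, e, l1.trans (by exact_mod_cast hle), l2, l3.trans hle, ?_⟩
        rw [List.map_cons, List.sum_cons, j4, ← l4, i4]
        push_cast
        ring
    obtain ⟨a, e, i1, i2, i3, i4⟩ := key p h
    have hle : (2 * M * X) ^ (p.map fun t => 1 + ∑ i, t.2 i).sum ≤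
        (2 * M * X) ^ (Formula.leaf p).size :=
      Nat.pow_le_pow_right (by omega) (by rw [Formula.size]; omega)
    exact ⟨a, e, i1.trans (by exact_mod_cast hle), i2, i3.trans hle, i4⟩
  | add f g hf hg =>
    intro h
    obtain ⟨a1, e1, i1, i2, i3, i4⟩ := hf h.1
    obtain ⟨a2, e2, j1, j2, j3, j4⟩ := hg h.2
    obtain ⟨a, e, l1, l2, l3, l4⟩ := frac_add K i1 i2 i3 j1 j2 j3
    have hle : 2 * (2 * M * X) ^ f.size * (2 * M * X) ^ g.size ≤
        (2 * M * X) ^ (Formula.add f g).size := by
      calc 2 * (2 * M * X) ^ f.size * (2 * M * X) ^ g.size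
          = (2 * M * X) ^ f.size * (2 * M * X) ^ g.size * 2 := by ring
        _ ≤ (2 * M * X) ^ f.size * (2 * M * X) ^ g.size * (2 * M * X) :=
            Nat.mul_le_mul_left _ hA
        _ = (2 * M * X) ^ (Formula.add f g).size := by
            rw [Formula.size, pow_add, pow_add, pow_one]
    refine ⟨a, e, l1.trans (by exact_mod_cast hle), l2, l3.trans hle, ?_⟩
    rw [Formula.value, i4, j4, l4]
  | mul f g hf hg =>
    intro h
    obtain ⟨a1, e1, i1, i2, i3, i4⟩ := hf h.1
    obtain ⟨a2, e2, j1, j2, j3, j4⟩ := hg h.2
    have hle : (2 * M * X) ^ f.size * (2 * M * X) ^ g.size ≤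
        (2 * M * X) ^ (Formula.mul f g).size := by
      rw [← pow_add, Formula.size]
      exact Nat.pow_le_pow_right (by omega) (by omega)
    refine ⟨a1 * a2, e1 * e2, ?_, Nat.mul_pos i2 j2, (Nat.mul_le_mul i3 j3).trans hle, ?_⟩
    · rw [abs_mul]
      refine le_trans (mul_le_mul i1 j1 (abs_nonneg _) (by positivity)) ?_
      exact_mod_cast hle
    · rw [Formula.value, i4, j4]
      push_cast
      rw [div_mul_div_comm]

/-- **Deterministic identity testing for bounded-read formulas of arbitrary depth and for functions
of them.** -/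
theorem result.{u} (k b n : ℕ) (K : Type u) [Field K] [CharZero K] [DecidableEq K]
    (L : List (Formula K n)) (hk : ∀ f ∈ L, ∀ i, f.reads i ≤ k) (hb : ∀ f ∈ L, f.Local b) :
    -- the point that is found decides which formulas are zero
    (∀ f ∈ L, f.poly ≠ 0 ↔ f.value (search k b L).pt ≠ 0) ∧
    -- together with few modifications, it decides which functions of the formulas are zero
    (∀ (T D : ℕ) (Ψ : MvPolynomial (Fin L.length) K), TrdegLE T (fun j => (L.get j).poly) →
      (bind₁ (fun j => (L.get j).poly) Ψ).totalDegree ≤ D →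
      (bind₁ (fun j => (L.get j).poly) Ψ ≠ 0 ↔ ∃ w ∈ cands n D (mods k b T),
        eval (fun j => (L.get j).value fun i => (search k b L).pt i + w i) Ψ ≠ 0)) ∧
    (∀ D R, (cands n D R).length = (n * (D + 1) + 1) ^ R) ∧
    -- the number of operations and the size of the points
    (search k b L).ops ≤ total L ^ 2 * (total L + 1) *
      (n * (total L * (total L + 1) + 1) + 1) ^ (b + mods k b 1) ∧
    (∀ x ∈ (search k b L).pt :: (search k b L).pts, ∀ i, x i ≤ total L ^ 2 * (total L + 1)) ∧
    -- the size of the numbers
    ∀ M : ℕ, 1 ≤ M → ∀ f : Formula K n, f.Height M →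
      ∀ x ∈ (search k b L).pt :: (search k b L).pts, ∃ (a : ℤ) (e : ℕ),
        |a| ≤ (((2 * M * (total L ^ 2 * (total L + 1) + 1)) ^ f.size : ℕ) : ℤ) ∧ 1 ≤ e ∧
        e ≤ (2 * M * (total L ^ 2 * (total L + 1) + 1)) ^ f.size ∧ f.value x = a / e := by
  have hInv0 : Inv (⟨fun _ => 0, [], 0, []⟩ : State K n) := fun q hq => absurd hq List.not_mem_nil
  have hw0 : weight ([] : List (Formula K n)) = 0 := rfl
  have hres := runAll_res (B := total L * (total L + 1))
    (C := cands n (total L * (total L + 1)) (b + mods k b 1)) le_cands L ⟨fun _ => 0, [], 0, []⟩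
  have hinv := runAll_inv (C := cands n (total L * (total L + 1)) (b + mods k b 1)) (L := L)
    hInv0
  have hcor := runAll_cor (k := k) (b := b) (B := total L * (total L + 1))
    (R := b + mods k b 1) (Nat.le_add_right _ _)
    (by rw [mods_eq]; exact Nat.le_add_left _ _) L ⟨fun _ => 0, [], 0, []⟩ hk hb hInv0
    (by simp only [hw0]; omega)
  change Inv (search k b L) ∧ _ at hinv
  change Res _ _ _ _ (search k b L) at hres
  change ∀ f ∈ L, f.poly ≠ 0 → ∃ D : Fm K, _ ∧ _ ∧ _ ∧ _ ∧ ∀ x : ℕ → K, (∀ q ∈ (search k b L).nz,
    _) → _ at hcor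
  obtain ⟨_, hops, hpt, hpts⟩ := hres
  generalize search k b L = s at *
  let a : ℕ → K := fun l => if h : l < n then ((s.pt ⟨l, h⟩ : ℕ) : K) else 0
  have ha : ∀ q : Formula K n, eval (fun i : Fin n => a i) q.poly = q.value s.pt := by
    intro q
    rw [Formula.value_eq]
    congr 2
    funext i
    simp [a]
  have hgood : ∀ f ∈ L, f.poly ≠ 0 → Pool.Agent.W2helper21.RF.GoodAt k b n a f.poly := by
    intro f hf hne
    obtain ⟨D, h1, h2, h3, h4, h5⟩ := hcor f hf hne
    refine ⟨D, h1, h2, fun u => (h3 u).trans (Formula.toFm_rd (hk f hf) u), h4, h5 a ?_⟩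
    intro q hq
    rw [ha]
    exact hinv.1 q hq
  have hpts' : ∀ x ∈ s.pt :: s.pts, ∀ i, x i ≤ total L ^ 2 * (total L + 1) := by
    intro x hx i
    have e : 0 + total L * (total L * (total L + 1)) = total L ^ 2 * (total L + 1) := by ring
    rcases List.mem_cons.mp hx with rfl | hx
    · exact (hpt i).trans (le_of_eq e)
    · rcases hpts x hx with hx | hx
      · exact absurd hx List.not_mem_nil
      · exact (hx i).trans (le_of_eq e)
  refine ⟨fun f hf => ⟨fun hne => ?_, fun h h0 => h ?_⟩, fun T D Ψ hT hD => ⟨fun hne => ?_, ?_⟩,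
    fun D R => length_cands n D R, ?_, hpts', fun M hM f hf x hx => height_value hM
      (Nat.le_add_left _ _) (fun i => (hpts' x hx i).trans (Nat.le_succ _)) f hf⟩
  · obtain ⟨D, h1, _, _, _, h5⟩ := hgood f hf hne
    have h6 := h5.ne
    rw [h1, Pool.Agent.W2helper21.RF.eval_ren, ha] at h6
    exact h6
  · rw [Formula.value_eq, h0, map_zero]
  · obtain ⟨x, ⟨S, hS, hx⟩, hxne⟩ := Pool.Agent.W2helper21.RF.rigid_trdeg (a := a) (k := k)
      (b := b) (fun j h => hgood (L.get j) (List.get_mem L j) h) hT Ψ hne
    classical
    obtain ⟨w, hw, hw'⟩ := exists_cand (a := s.pt) (B := D) (R := mods k b T)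
      (L := [bind₁ (fun j => (L.get j).poly) Ψ]) (by simpa using hD)
      (S := Finset.univ.filter fun i : Fin n => (i : ℕ) ∈ S)
      ((Finset.card_le_card_of_injOn (fun i : Fin n => (i : ℕ))
        (fun i hi => (Finset.mem_filter.mp hi).2) (fun i _ j _ h => Fin.ext h)).trans
        (hS.trans (mods_eq k b T).ge))
      (by
        intro q hq
        rw [List.mem_singleton] at hq
        rw [hq]
        refine ⟨fun i => x i, fun i hi => ?_, hxne⟩
        have h6 : (i : ℕ) ∉ S := fun h => hi (Finset.mem_filter.mpr ⟨Finset.mem_univ _, h⟩)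
        show x i = _
        rw [hx i h6]
        simp [a])
    refine ⟨w, hw, ?_⟩
    have h7 := hw' _ List.mem_cons_self
    rw [Pool.Agent.W2helper21.ROT.eval_bind] at h7
    intro h0
    apply h7
    rw [← h0]
    congr 2
    funext j
    rw [Formula.value_eq]
  · rintro ⟨w, _, hw⟩ h0
    apply hw
    have h7 := Pool.Agent.W2helper21.ROT.eval_bind (fun j => (L.get j).poly) Ψ
      (fun i => ((s.pt i + w i : ℕ) : K))
    rw [h0, map_zero] at h7
    rw [h7]
    congr 2
    funext j
    rw [Formula.value_eq]
  · refine hops.trans (le_of_eq ?_)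
    simp only [hw0, length_cands]
    ring

end Pool.Agent.Results.MP_e2be99_lc.BoundedReadAlgorithm
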