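import Pool.Agent.W2helper21.RF.Poly

/-!
# Hitting sets for bounded-read formulas of arbitrary depth and for functions of them

We consider arithmetic formulas (binary trees of additions and multiplications) of arbitrary depth
and size in which every variable occurs in at most `k` leaves, and where a leaf is an arbitrary
polynomial in at most `b` variables.  There is no assumption of multilinearity: for `k ≥ 2` the
same variable may occur on both sides of a product, and already for `k = 1` the leaves may be
univariate polynomials of any degree (or polynomials in `b` variables).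

For numbers `k, b, T, h` we give an explicit set of at most `(n D + 1) ^ (2 q)` integer points,
where `q = numSeeds k b T h = b + (h + 1) * mods k b 1 + mods k b T` (so `q = O (h + 1)` for fixed
`k, b, T`), which hits every nonzero polynomial of total degree at most `D` in `n` variables of the
form `Ψ (F_1, …, F_s)`, where `F_1, …, F_s` are computed by such formulas, at most `T` of them are
algebraically independent, and `Ψ` is an arbitrary polynomial, and all products of such
polynomials, under one of the conditions

* `h ≥ log_2 (n k)`; no further condition.  This gives deterministic black-box identity testing in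
  time `(n D) ^ O (log n)` for fixed `k, b, T`;
* the Horton-Strahler number of all the formulas is at most `h`.  For fixed `h` (for instance for
  formulas of bounded depth with gates of unbounded fan-in, which have Horton-Strahler number at
  most the depth when every gate is written as a sequence of binary operations) this is polynomial
  time.

The points are those of the generator of Shpilka and Volkovich.

The proof (see `Pool/Agent/W2helper21/RF`, with parts in `W2helper24/RF`, `W2helper98/RF`,
`W2helper15/RF`; it uses `W2helper21/RK`, `FRO` and the theorem on chains of matrices of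
`W2helper94/PIT`).  The key statement `RF.rigid` says that `Ψ (F_1, …, F_T)`, if it is not zero, is
not zero at a point which differs in at most `mods k b T` coordinates from a base point `a` at
which no subformula of the `F_i` vanishes.  For a minimal set `S` of modified coordinates one finds
a large subset `J` of `S` with respect to which the formulas have a bounded structure (`RF.Nc`): if
many variables of `S` are in one subformula then one can follow a path down from it such that many
variables are in at least two of the subformulas that branch off (the caterpillar lemma), so that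
the number of occurrences in every remaining part drops; otherwise the occurrences of the variables
of `J` along the path are in increasing or in decreasing order in a bounded number of blocks.
Restricted to `J` every `F_i` is then a bounded expression in functionals of chains of matrices of
bounded size, with ranks which are maximal at `a`, hence itself a functional of such a chain, and
functions of aligned chains are rigid.  The base point is reached by the generator by induction on
the Horton-Strahler number: every formula has a path such that the subformulas which branch off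
have smaller number.
-/

namespace Pool.Agent.Results.MP_e2be99_lc.BoundedReadFormulas

open MvPolynomial
open Pool.Agent.W2helper21.FRO (genPoly genPoly_degree totalDegree_bind eval_genPoly)
open Pool.Agent.W2helper21.RF (Fm)

/-- Arithmetic formulas over the field `K` in `n` variables; a leaf is an arbitrary polynomial. -/
inductive Formula (K : Type*) [Field K] (n : ℕ)
  | leaf (p : MvPolynomial (Fin n) K)
  | add (f g : Formula K n)
  | mul (f g : Formula K n)

namespace Formula

variable {K : Type*} [Field K] {n : ℕ}

/-- the polynomial computed by a formula -/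
noncomputable def poly : Formula K n → MvPolynomial (Fin n) K
  | leaf p => p
  | add f g => f.poly + g.poly
  | mul f g => f.poly * g.poly

/-- the variables which occur in a formula -/
noncomputable def vars : Formula K n → Finset (Fin n)
  | leaf p => p.vars
  | add f g => f.vars ∪ g.vars
  | mul f g => f.vars ∪ g.vars

/-- the number of leaves in which the variable `i` occurs -/
noncomputable def reads (i : Fin n) : Formula K n → ℕ
  | leaf p => if i ∈ p.vars then 1 else 0
  | add f g => f.reads i + g.reads i
  | mul f g => f.reads i + g.reads i

/-- in every leaf occur at most `b` variables -/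
def Local (b : ℕ) : Formula K n → Prop
  | leaf p => p.vars.card ≤ b
  | add f g => f.Local b ∧ g.Local b
  | mul f g => f.Local b ∧ g.Local b

/-- the Horton-Strahler number of the tree; subformulas without variables are ignored -/
noncomputable def strahler : Formula K n → ℕ
  | leaf _ => 0
  | add f g => if f.vars = ∅ then g.strahler else if g.vars = ∅ then f.strahler else
      if f.strahler = g.strahler then f.strahler + 1 else max f.strahler g.strahler
  | mul f g => if f.vars = ∅ then g.strahler else if g.vars = ∅ then f.strahler else
      if f.strahler = g.strahler then f.strahler + 1 else max f.strahler g.strahler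

end Formula

/-- At most `T` of the polynomials `p_i` are algebraically independent. -/
def TrdegLE {K : Type*} [Field K] {n s : ℕ} (T : ℕ) (p : Fin s → MvPolynomial (Fin n) K) : Prop :=
  ∀ I : Finset (Fin s), AlgebraicIndependent K (fun i : I => p i) → I.card ≤ T

/-- the number of variables among which one finds `s` variables for which a path with read
number `k` is regular -/
def regSize : ℕ → ℕ → ℕ
  | 0, s => s + 1
  | k + 1, s => s * s * regSize k (regSize k s) + 1

/-- the number of variables among which one finds `s` variables for which a formula with `r` reads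
has a bounded structure -/
def selSize (k b : ℕ) : ℕ → ℕ → ℕ
  | 0, s => regSize k s
  | r + 1, s =>
      regSize k s * (k * ((b + 1) * 2 ^ (regSize k ((selSize k b r)^[5] s) *
        (k * ((selSize k b r)^[5] s + 1) + 1))) + 1) +
      (b + 1) * 2 ^ (regSize k ((selSize k b r)^[5] s) * (k * ((selSize k b r)^[5] s + 1) + 1)) +
      regSize k ((selSize k b r)^[5] s) * (k * ((selSize k b r)^[5] s + 1) + 1) +
      (selSize k b r)^[5] s

/-- the width of the chain for a regular path -/
def pathWidth : ℕ → ℕ
  | 0 => 2
  | k + 1 => pathWidth k * pathWidth k * 2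

/-- the width of the chain for a formula with a structure of depth `m` -/
def formWidth (k : ℕ) : ℕ → ℕ
  | 0 => pathWidth k
  | m + 1 => 4 * (formWidth k m * formWidth k m * formWidth k m) + 1

/-- the length from which functions of `T` aligned chains of width `c` are rigid -/
def rigidLength (c T : ℕ) : ℕ :=
  T + (T + 1) * (((c * T) ^ T * T.factorial + 1) ^ (c * T) * 2) + 1

/-- the number of modified coordinates for functions of `T` formulas -/
def mods (k b T : ℕ) : ℕ := (selSize k b k)^[T] (rigidLength (formWidth k (2 * k)) T)

/-- the number of copies of the basic generator -/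
def numSeeds (k b T h : ℕ) : ℕ := b + (h + 1) * mods k b 1 + mods k b T

/-- the points of the generator: `h_i = ∑_c y_c ∏_{j ≠ i} (z_c - j)` -/
def genPoint (n q : ℕ) (s : Fin q ⊕ Fin q → ℤ) (i : Fin n) : ℤ :=
  ∑ c, s (Sum.inl c) * ∏ j ∈ Finset.univ.erase i, (s (Sum.inr c) - ((j : ℕ) : ℤ))

/-- the hitting set: all seeds run through `{0, …, n D}` -/
def hitSet (q n D : ℕ) : Finset (Fin n → ℤ) :=
  (Finset.univ : Finset (Fin q ⊕ Fin q → Fin (n * D + 1))).image
    fun s => genPoint n q fun t => ((s t : ℕ) : ℤ)

theorem card_hitSet (q n D : ℕ) : (hitSet q n D).card ≤ (n * D + 1) ^ (2 * q) := by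
  unfold hitSet
  refine Finset.card_image_le.trans ?_
  rw [Finset.card_univ, Fintype.card_fun, Fintype.card_sum, Fintype.card_fin, Fintype.card_fin,
    two_mul]

theorem size_hitSet (q n D : ℕ) : ∀ x ∈ hitSet q n D, ∀ i,
    |x i| ≤ q * (n * D) * (n * D + n) ^ (n - 1) := by
  intro h hh i
  unfold hitSet at hh
  rw [Finset.mem_image] at hh
  obtain ⟨s, _, rfl⟩ := hh
  unfold genPoint
  refine (Finset.abs_sum_le_sum_abs _ _).trans ?_
  have hs : ∀ c, (0 : ℤ) ≤ ((s c : ℕ) : ℤ) ∧ ((s c : ℕ) : ℤ) ≤ n * D := by
    intro c
    have := (s c).2
    refine ⟨by positivity, ?_⟩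
    exact_mod_cast Nat.lt_succ_iff.mp this
  have hb : ∀ t ∈ (Finset.univ : Finset (Fin q)),
      |((s (Sum.inl t) : ℕ) : ℤ) * ∏ j ∈ Finset.univ.erase i, (((s (Sum.inr t) : ℕ) : ℤ)
        - (((j : Fin n) : ℕ) : ℤ))| ≤ (n * D) * (n * D + n) ^ (n - 1) := by
    intro t _
    rw [abs_mul, Finset.abs_prod]
    apply mul_le_mul
    · rw [abs_of_nonneg (hs _).1]
      exact (hs _).2
    · have : ∏ j ∈ Finset.univ.erase i, |((s (Sum.inr t) : ℕ) : ℤ) - (((j : Fin n) : ℕ) : ℤ)|
          ≤ ∏ _j ∈ Finset.univ.erase i, ((n : ℤ) * D + n) := by
        apply Finset.prod_le_prod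
        · intro j _
          positivity
        · intro j _
          have h1 := hs (Sum.inr t)
          have h2 : (((j : Fin n) : ℕ) : ℤ) ≤ n := by exact_mod_cast j.2.le
          have h3 : (0 : ℤ) ≤ (((j : Fin n) : ℕ) : ℤ) := by positivity
          rw [abs_le]
          constructor <;> linarith [h1.1, h1.2]
      refine this.trans (le_of_eq ?_)
      rw [Finset.prod_const, Finset.card_erase_of_mem (Finset.mem_univ i), Finset.card_univ,
        Fintype.card_fin]
    · positivity
    · positivity
  refine (Finset.sum_le_card_nsmul _ _ _ hb).trans (le_of_eq ?_)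
  rw [Finset.card_univ, Fintype.card_fin, nsmul_eq_mul]
  ring

/-! ### Comparison with the helper files -/

theorem regSize_eq : ∀ k s, regSize k s = Pool.Agent.W2helper21.RK.Bk k s := by
  intro k
  induction k with
  | zero => exact fun _ => rfl
  | succ k ih =>
    intro s
    simp only [regSize, Pool.Agent.W2helper21.RK.Bk, ih]

theorem selSize_eq (k b : ℕ) : ∀ r s, selSize k b r s = Pool.Agent.W2helper21.RF.Phi k b r s := by
  intro r
  induction r with
  | zero => exact fun s => regSize_eq k s
  | succ r ih =>
    intro s
    have h : selSize k b r = Pool.Agent.W2helper21.RF.Phi k b r := funext ih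
    simp only [selSize, Pool.Agent.W2helper21.RF.Phi, h, regSize_eq]

theorem pathWidth_eq : ∀ k, pathWidth k = Pool.Agent.W2helper21.RK.Cd 2 k := by
  intro k
  induction k with
  | zero => rfl
  | succ k ih => simp only [pathWidth, Pool.Agent.W2helper21.RK.Cd, ih]

theorem formWidth_eq (k : ℕ) : ∀ m, formWidth k m = Pool.Agent.W2helper21.RF.Cz k m := by
  intro m
  induction m with
  | zero => exact pathWidth_eq k
  | succ m ih => simp only [formWidth, Pool.Agent.W2helper21.RF.Cz, ih]

theorem mods_eq (k b T : ℕ) : mods k b T = Pool.Agent.W2helper21.RF.Rn k b T := by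
  have h : selSize k b k = Pool.Agent.W2helper21.RF.Phi k b k := funext (selSize_eq k b k)
  unfold mods Pool.Agent.W2helper21.RF.Rn
  rw [h, formWidth_eq]
  rfl

theorem numSeeds_eq (k b T h : ℕ) :
    numSeeds k b T h = Pool.Agent.W2helper21.RF.fSeeds k b T h := by
  unfold numSeeds Pool.Agent.W2helper21.RF.fSeeds
  simp only [mods_eq]

namespace Formula

variable {K : Type*} [Field K] {n : ℕ}

/-- the same formula with variables numbered by natural numbers -/
noncomputable def toFm : Formula K n → Fm K
  | leaf p => Fm.leaf (rename Fin.val p)
  | add f g => Fm.add f.toFm g.toFm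
  | mul f g => Fm.mul f.toFm g.toFm

theorem toFm_poly (D : Formula K n) : D.toFm.poly = rename Fin.val D.poly := by
  induction D with
  | leaf p => rfl
  | add f g ihf ihg => simp only [toFm, poly, Fm.poly, ihf, ihg, map_add]
  | mul f g ihf ihg => simp only [toFm, poly, Fm.poly, ihf, ihg, map_mul]

theorem toFm_vars (D : Formula K n) : D.toFm.vars ⊆ D.vars.image Fin.val := by
  classical
  induction D with
  | leaf p =>
    intro u hu
    exact vars_rename _ _ hu
  | add f g ihf ihg =>
    simp only [toFm, vars, Fm.vars, Finset.image_union]
    exact Finset.union_subset_union ihf ihg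
  | mul f g ihf ihg =>
    simp only [toFm, vars, Fm.vars, Finset.image_union]
    exact Finset.union_subset_union ihf ihg

theorem toFm_loc {b : ℕ} (D : Formula K n) (h : D.Local b) : D.toFm.Loc b := by
  classical
  induction D with
  | leaf p =>
    exact (Finset.card_le_card (vars_rename _ _)).trans (Finset.card_image_le.trans h)
  | add f g ihf ihg => exact ⟨ihf h.1, ihg h.2⟩
  | mul f g ihf ihg => exact ⟨ihf h.1, ihg h.2⟩

theorem toFm_rdc (D : Formula K n) (i : Fin n) : D.toFm.rdc i ≤ D.reads i := by
  classical
  induction D with
  | leaf p =>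
    simp only [toFm, reads, Fm.rdc]
    by_cases h : (i : ℕ) ∈ (rename Fin.val p : MvPolynomial ℕ K).vars
    · have h1 := vars_rename _ _ h
      rw [Finset.mem_image] at h1
      obtain ⟨j, hj, hji⟩ := h1
      have h2 : i ∈ p.vars := by rwa [← Fin.ext hji]
      rw [if_pos h, if_pos h2]
    · rw [if_neg h]
      exact Nat.zero_le _
  | add f g ihf ihg => exact Nat.add_le_add ihf ihg
  | mul f g ihf ihg => exact Nat.add_le_add ihf ihg

theorem toFm_st (D : Formula K n) : D.toFm.st ≤ D.strahler := by
  have hv : ∀ f : Formula K n, f.vars = ∅ → f.toFm.vars = ∅ := by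
    intro f hf
    have h1 := f.toFm_vars
    rw [hf, Finset.image_empty] at h1
    exact Finset.subset_empty.mp h1
  induction D with
  | leaf p => exact Nat.zero_le _
  | add f g ihf ihg =>
    rw [toFm, Fm.st, strahler]
    exact Pool.Agent.W2helper21.RF.cmb (hv f) (hv g) ihf ihg Fm.st_zero
  | mul f g ihf ihg =>
    rw [toFm, Fm.st, strahler]
    exact Pool.Agent.W2helper21.RF.cmb (hv f) (hv g) ihf ihg Fm.st_zero

theorem cmp {k b h : ℕ} {D : Formula K n} (hk : ∀ i, D.reads i ≤ k) (hb : D.Local b)
    (hh : Nat.log 2 (n * k) ≤ h ∨ D.strahler ≤ h) :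
    Pool.Agent.W2helper21.RF.Cmp k b h D.poly := by
  have hvr : ∀ u ∈ D.toFm.vars, u < n := by
    intro u hu
    have h1 := D.toFm_vars hu
    rw [Finset.mem_image] at h1
    obtain ⟨j, _, rfl⟩ := h1
    exact j.2
  have hrd : ∀ u, D.toFm.rdc u ≤ k := by
    intro u
    by_cases hu : u < n
    · exact (D.toFm_rdc ⟨u, hu⟩).trans (hk ⟨u, hu⟩)
    · have h1 : ¬ 1 ≤ D.toFm.rdc u := fun h1 =>
        hu (hvr u ((Pool.Agent.W2helper98.RF.mem_vars D.toFm u).mpr h1))
      omega
  refine ⟨D.toFm, D.toFm_poly, D.toFm_loc hb, hrd, hvr, ?_⟩
  rcases hh with hh | hh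
  · exact (Pool.Agent.W2helper21.RF.st_log hvr hrd).trans hh
  · exact D.toFm_st.trans hh

end Formula

/-- **Polynomial identity testing for functions of bounded-read formulas of arbitrary depth, of
bounded transcendence degree.** -/
theorem result.{u} (k b T h n D : ℕ) :
    (hitSet (numSeeds k b T h) n D).card ≤ (n * D + 1) ^ (2 * numSeeds k b T h) ∧
    (∀ x ∈ hitSet (numSeeds k b T h) n D, ∀ i,
      |x i| ≤ numSeeds k b T h * (n * D) * (n * D + n) ^ (n - 1)) ∧
    ∀ (K : Type u) [Field K] [CharZero K] (r : ℕ) (s : Fin r → ℕ)
      (F : ∀ i, Fin (s i) → Formula K n) (Ψ : ∀ i, MvPolynomial (Fin (s i)) K),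
      (∀ i j l, (F i j).reads l ≤ k) → (∀ i j, (F i j).Local b) →
      (Nat.log 2 (n * k) ≤ h ∨ ∀ i j, (F i j).strahler ≤ h) →
      (∀ i, TrdegLE T fun j => (F i j).poly) →
        (∏ i, bind₁ (fun j => (F i j).poly) (Ψ i)).totalDegree ≤ D →
        (∏ i, bind₁ (fun j => (F i j).poly) (Ψ i)) ≠ 0 →
        ∃ x ∈ hitSet (numSeeds k b T h) n D,
          eval (fun i => (x i : K)) (∏ i, bind₁ (fun j => (F i j).poly) (Ψ i)) ≠ 0 := by
  refine ⟨card_hitSet _ n D, size_hitSet _ n D, ?_⟩
  intro K _ _ r s F Ψ hk hb hh hT hdeg hne
  classical
  have hcmp : ∀ i j, Pool.Agent.W2helper21.RF.Cmp k b h (F i j).poly := fun i j =>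
    Formula.cmp (hk i j) (hb i j) (hh.imp id fun h' => h' i j)
  have h1 : bind₁ (genPoly K n (numSeeds k b T h))
      (∏ i, bind₁ (fun j => (F i j).poly) (Ψ i)) ≠ 0 := by
    rw [map_prod, Finset.prod_ne_zero_iff, numSeeds_eq]
    intro i _
    exact Pool.Agent.W2helper21.RF.bind_ne_zero_trdeg (hcmp i) (hT i) (Ψ i)
      ((Finset.prod_ne_zero_iff.mp hne) i (Finset.mem_univ i))
  have hdeg' : (bind₁ (genPoly K n (numSeeds k b T h))
      (∏ i, bind₁ (fun j => (F i j).poly) (Ψ i))).totalDegree ≤ n * D :=
    (totalDegree_bind _ n (fun i => genPoly_degree n _ i) _).trans (Nat.mul_le_mul_left n hdeg)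
  by_contra hcon
  push Not at hcon
  apply h1
  let S : Finset K := (Finset.range (n * D + 1)).image (fun t : ℕ => (t : K))
  have hS : S.card = n * D + 1 := by
    rw [Finset.card_image_of_injective _ Nat.cast_injective, Finset.card_range]
  apply eq_zero_of_eval_zero_at_prod_finset _ (fun _ => S)
  · intro i
    rw [hS]
    exact Nat.lt_succ_of_le ((degreeOf_le_totalDegree _ _).trans hdeg')
  · intro x hx
    have hx' : ∀ t, ∃ t' : Fin (n * D + 1), x t = ((t' : ℕ) : K) := by
      intro t
      obtain ⟨t', ht, h⟩ := Finset.mem_image.mp (hx t)
      exact ⟨⟨t', Finset.mem_range.mp ht⟩, h.symm⟩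
    choose t ht using hx'
    rw [eval_genPoly]
    have := hcon (genPoint n (numSeeds k b T h) fun c => ((t c : ℕ) : ℤ)) (by
      unfold hitSet
      exact Finset.mem_image.mpr ⟨t, Finset.mem_univ _, rfl⟩)
    rw [← this]
    congr 2
    funext i
    unfold genPoint
    push_cast
    simp only [ht]

end Pool.Agent.Results.MP_e2be99_lc.BoundedReadFormulas
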