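import Pool.Agent.W2helper21.LP.Poly

/-!
# Hitting sets for functions of bounded-read programs of constant width

A *program* of width `w`, read number `k` and locality `b` computes a polynomial
`u · M_1 M_2 ⋯ M_N · z`, where the `M_q` are `w × w` matrices of polynomials in `x_1, …, x_n`,
`u` and `z` are constant vectors, the matrix `M_q` involves only the variables of a set `V_q` with
at most `b` elements, and every variable is in at most `k` of the sets `V_q`.  For `b = 1` these
are the read-`k` oblivious algebraic branching programs of width `w`, with an arbitrary sequence of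
reads; for `b = k = 1` they contain the read-once oblivious programs (ROABPs) in every variable
order (`Pool.Agent.W2helper21.LP.of_roabp`).

For all numbers `w, k, b, T` we give an explicit set `hitSet w k b T n D` of at most
`(n D + 1) ^ (2 q)` integer points, where `q = numSeeds w k b T` does not depend on `n` and `D`,
which hits every nonzero polynomial of total degree at most `D` in `n` variables of the form
`Ψ (F_1, …, F_s)`, where `F_1, …, F_s` are computed by such programs, with unrelated sequences of
reads, at most `T` of them are algebraically independent, and `Ψ` is an arbitrary polynomial (of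
any degree, with any number of monomials), and more generally every nonzero product of such
polynomials.  So for fixed `w, k, b, T` this is a deterministic polynomial time black-box identity
test.  The points are those of the generator of Shpilka and Volkovich with `numSeeds w k b T`
copies.  With `T = c` and `Ψ = y_1 + ⋯ + y_c` one gets sums of `c` programs.

The proof (see `Pool/Agent/W2helper21/LP`, `RK`, `FRO`; it uses the theorem on chains of matrices
of `Pool/Agent/W2helper94/PIT`): the key statement `LP.rigid` says that a function `Ψ (F_1, …, F_T)`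
of programs (or of windows `M_i ⋯ M_{j-1}` of programs) which is not zero is not zero at a point
which differs in a bounded number of coordinates from a base point `a` at which all the proper
inner windows have maximal rank.  For a minimal set `S` of modified coordinates one finds a large
subset `J` of `S` such that every program is divided into `2 ^ k` parts in which the variables of
`J` are read one after the other in increasing or in decreasing order (a greedy argument and the
theorem of Erdos and Szekeres).  Restricted to `J` every program is then a functional of a tensor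
product of `2 ^ k` chains (transposed for decreasing order), so it is a chain of bounded width with
ranks that are maximal at `a`, and the minors of the Jacobian of functions of such aligned chains
are again functionals of chains.  The base point is reached by the generator by downward induction
on the ranks: the rank conditions of level `ρ` are determinants of size `ρ`, that is functions of
`ρ ^ 2` windows, for windows whose inner windows have rank more than `ρ`.
-/

namespace Pool.Agent.Results.MP_e2be99_lc.FunctionsOfReadKPrograms

open MvPolynomial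
open Pool.Agent.W2helper21.FRO (genPoly genPoly_degree totalDegree_bind eval_genPoly)

/-- `p` is computed by a program of width `w`, read number `k` and locality `b`: a product
`u · M_1 ⋯ M_N · z` of `w × w` matrices of polynomials, where `M_q` involves only variables of a
set `V_q` with at most `b` elements, and every variable is in at most `k` of the sets `V_q`. -/
def ComputedByProgram {K : Type*} [Field K] {n : ℕ} (w k b : ℕ) (p : MvPolynomial (Fin n) K) :
    Prop :=
  ∃ (N : ℕ) (M : Fin N → Matrix (Fin w) (Fin w) (MvPolynomial (Fin n) K))
    (V : Fin N → Finset (Fin n)) (u z : Fin w → K),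
    (∀ q a c, (M q a c).vars ⊆ V q) ∧ (∀ q, (V q).card ≤ b) ∧
    (∀ i, (Finset.univ.filter fun q => i ∈ V q).card ≤ k) ∧
    p = ∑ a, ∑ c, C (u a) * (List.ofFn M).prod a c * C (z c)

/-- At most `T` of the polynomials `p_i` are algebraically independent. -/
def TrdegLE {K : Type*} [Field K] {n s : ℕ} (T : ℕ) (p : Fin s → MvPolynomial (Fin n) K) : Prop :=
  ∀ I : Finset (Fin s), AlgebraicIndependent K (fun i : I => p i) → I.card ≤ T

/-- the number of variables among which one finds `s` variables for which a program with read
number `k` is regular -/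
def regSize : ℕ → ℕ → ℕ
  | 0, s => s + 1
  | k + 1, s => s * s * regSize k (regSize k s) + 1

/-- the width of the chain for a regular program -/
def chainWidth (w : ℕ) : ℕ → ℕ
  | 0 => w
  | k + 1 => chainWidth w k * chainWidth w k * w

/-- the length from which functions of `T` aligned chains of width `c` are rigid -/
def rigidLength (c T : ℕ) : ℕ :=
  T + (T + 1) * (((c * T) ^ T * T.factorial + 1) ^ (c * T) * 2) + 1

/-- the number of modified coordinates for functions of `T` programs -/
def mods (w k b T : ℕ) : ℕ :=
  (regSize k)^[T] (rigidLength (chainWidth w k * (w * w)) T) * (T * (k * b) + 1) + T * (2 * b)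

/-- the number of copies of the basic generator; it depends on `w, k, b, T` only -/
def numSeeds (w k b T : ℕ) : ℕ :=
  w * (∑ ρ ∈ Finset.range (w + 1), mods w k b (ρ * ρ)) + mods w k b T

/-- the points of the generator: `h_i = ∑_c y_c ∏_{j ≠ i} (z_c - j)` -/
def genPoint (n q : ℕ) (s : Fin q ⊕ Fin q → ℤ) (i : Fin n) : ℤ :=
  ∑ c, s (Sum.inl c) * ∏ j ∈ Finset.univ.erase i, (s (Sum.inr c) - ((j : ℕ) : ℤ))

/-- the hitting set: all seeds run through `{0, …, n D}` -/
def hitSet (w k b T n D : ℕ) : Finset (Fin n → ℤ) :=
  (Finset.univ : Finset (Fin (numSeeds w k b T) ⊕ Fin (numSeeds w k b T) → Fin (n * D + 1))).image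
    fun s => genPoint n (numSeeds w k b T) fun t => ((s t : ℕ) : ℤ)

theorem card_hitSet (w k b T n D : ℕ) :
    (hitSet w k b T n D).card ≤ (n * D + 1) ^ (2 * numSeeds w k b T) := by
  unfold hitSet
  refine Finset.card_image_le.trans ?_
  rw [Finset.card_univ, Fintype.card_fun, Fintype.card_sum, Fintype.card_fin, Fintype.card_fin,
    two_mul]

theorem size_hitSet (w k b T n D : ℕ) : ∀ h ∈ hitSet w k b T n D, ∀ i,
    |h i| ≤ numSeeds w k b T * (n * D) * (n * D + n) ^ (n - 1) := by
  intro h hh i
  unfold hitSet at hh
  rw [Finset.mem_image] at hh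
  obtain ⟨s, _, rfl⟩ := hh
  unfold genPoint
  refine (Finset.abs_sum_le_sum_abs _ _).trans ?_
  have hs : ∀ c, (0 : ℤ) ≤ ((s c : ℕ) : ℤ) ∧ ((s c : ℕ) : ℤ) ≤ n * D := by
    intro c
    have := (s c).2
    refine ⟨by positivity, ?_⟩
    exact_mod_cast Nat.lt_succ_iff.mp this
  have hb : ∀ t ∈ (Finset.univ : Finset (Fin (numSeeds w k b T))),
      |((s (Sum.inl t) : ℕ) : ℤ) * ∏ j ∈ Finset.univ.erase i, (((s (Sum.inr t) : ℕ) : ℤ)
        - (((j : Fin n) : ℕ) : ℤ))| ≤ (n * D) * (n * D + n) ^ (n - 1) := by
    intro t _
    rw [abs_mul, Finset.abs_prod]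
    apply mul_le_mul
    · rw [abs_of_nonneg (hs _).1]
      exact (hs _).2
    · have : ∏ j ∈ Finset.univ.erase i, |((s (Sum.inr t) : ℕ) : ℤ) - (((j : Fin n) : ℕ) : ℤ)|
          ≤ ∏ _j ∈ Finset.univ.erase i, ((n : ℤ) * D + n) := by
        apply Finset.prod_le_prod
        · intro j _
          positivity
        · intro j _
          have h1 := hs (Sum.inr t)
          have h2 : (((j : Fin n) : ℕ) : ℤ) ≤ n := by exact_mod_cast j.2.le
          have h3 : (0 : ℤ) ≤ (((j : Fin n) : ℕ) : ℤ) := by positivity
          rw [abs_le]
          constructor <;> linarith [h1.1, h1.2]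
      refine this.trans (le_of_eq ?_)
      rw [Finset.prod_const, Finset.card_erase_of_mem (Finset.mem_univ i), Finset.card_univ,
        Fintype.card_fin]
    · positivity
    · positivity
  refine (Finset.sum_le_card_nsmul _ _ _ hb).trans (le_of_eq ?_)
  rw [Finset.card_univ, Fintype.card_fin, nsmul_eq_mul]
  ring

theorem regSize_eq : ∀ k s, regSize k s = Pool.Agent.W2helper21.RK.Bk k s := by
  intro k
  induction k with
  | zero => exact fun _ => rfl
  | succ k ih =>
    intro s
    simp only [regSize, Pool.Agent.W2helper21.RK.Bk, ih]

theorem chainWidth_eq (w : ℕ) : ∀ k, chainWidth w k = Pool.Agent.W2helper21.RK.Cd w k := by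
  intro k
  induction k with
  | zero => rfl
  | succ k ih => simp only [chainWidth, Pool.Agent.W2helper21.RK.Cd, ih]

theorem mods_eq (w k b T : ℕ) : mods w k b T = Pool.Agent.W2helper21.LP.Rn w k b T := by
  have h : regSize k = Pool.Agent.W2helper21.RK.Bk k := funext (regSize_eq k)
  unfold mods Pool.Agent.W2helper21.LP.Rn
  rw [h, chainWidth_eq]
  rfl

theorem numSeeds_eq (w k b T : ℕ) : numSeeds w k b T = Pool.Agent.W2helper21.LP.lSeeds w k b T := by
  unfold numSeeds Pool.Agent.W2helper21.LP.lSeeds Pool.Agent.W2helper21.LP.Kb
  simp only [mods_eq]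

/-- **Polynomial identity testing for functions of programs of bounded width, read number and
locality, and of bounded transcendence degree.** -/
theorem result.{u} (w k b T n D : ℕ) :
    (hitSet w k b T n D).card ≤ (n * D + 1) ^ (2 * numSeeds w k b T) ∧
    (∀ h ∈ hitSet w k b T n D, ∀ i,
      |h i| ≤ numSeeds w k b T * (n * D) * (n * D + n) ^ (n - 1)) ∧
    ∀ (K : Type u) [Field K] [CharZero K] (r : ℕ) (s : Fin r → ℕ)
      (p : ∀ i, Fin (s i) → MvPolynomial (Fin n) K) (Ψ : ∀ i, MvPolynomial (Fin (s i)) K),
      (∀ i j, ComputedByProgram w k b (p i j)) → (∀ i, TrdegLE T (p i)) →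
        (∏ i, bind₁ (p i) (Ψ i)).totalDegree ≤ D → (∏ i, bind₁ (p i) (Ψ i)) ≠ 0 →
        ∃ h ∈ hitSet w k b T n D, eval (fun i => (h i : K)) (∏ i, bind₁ (p i) (Ψ i)) ≠ 0 := by
  refine ⟨card_hitSet w k b T n D, size_hitSet w k b T n D, ?_⟩
  intro K _ _ r s p Ψ hp hT hdeg hne
  classical
  have h1 : bind₁ (genPoly K n (numSeeds w k b T)) (∏ i, bind₁ (p i) (Ψ i)) ≠ 0 := by
    rw [map_prod, Finset.prod_ne_zero_iff, numSeeds_eq]
    intro i _
    exact Pool.Agent.W2helper21.LP.bind_ne_zero_trdeg (hp i) (hT i) (Ψ i)
      ((Finset.prod_ne_zero_iff.mp hne) i (Finset.mem_univ i))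
  have hdeg' : (bind₁ (genPoly K n (numSeeds w k b T)) (∏ i, bind₁ (p i) (Ψ i))).totalDegree ≤
      n * D :=
    (totalDegree_bind _ n (fun i => genPoly_degree n _ i) _).trans (Nat.mul_le_mul_left n hdeg)
  by_contra hcon
  push Not at hcon
  apply h1
  let S : Finset K := (Finset.range (n * D + 1)).image (fun t : ℕ => (t : K))
  have hS : S.card = n * D + 1 := by
    rw [Finset.card_image_of_injective _ Nat.cast_injective, Finset.card_range]
  apply eq_zero_of_eval_zero_at_prod_finset _ (fun _ => S)
  · intro i
    rw [hS]
    exact Nat.lt_succ_of_le ((degreeOf_le_totalDegree _ _).trans hdeg')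
  · intro x hx
    have hx' : ∀ t, ∃ t' : Fin (n * D + 1), x t = ((t' : ℕ) : K) := by
      intro t
      obtain ⟨t', ht, h⟩ := Finset.mem_image.mp (hx t)
      exact ⟨⟨t', Finset.mem_range.mp ht⟩, h.symm⟩
    choose t ht using hx'
    rw [eval_genPoly]
    have := hcon (genPoint n (numSeeds w k b T) fun c => ((t c : ℕ) : ℤ)) (by
      unfold hitSet
      exact Finset.mem_image.mpr ⟨t, Finset.mem_univ _, rfl⟩)
    rw [← this]
    congr 2
    funext i
    unfold genPoint
    push_cast
    simp only [ht]

end Pool.Agent.Results.MP_e2be99_lc.FunctionsOfReadKPrograms
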