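import Mathlib
import Pool.Agent.W2helper21.ROT.OF

/-!
# Explicit hitting sets for functions of read-once formulas, nested to bounded depth

Let `F` be a field of characteristic `0`. A polynomial is built from read-once formulas over
arbitrary polynomial gates (`base`, see below) by the following operations.

* `gate`: a polynomial `Φ` which is affine or depends on at most `k + 1` of its arguments, of
  any degree, applied to subformulas in pairwise disjoint sets of variables;
* `prod`: products of any number of arbitrary subformulas, which may share variables;
* `mix` (overlap gates): `Ψ(f_1, …, f_s)` with an ARBITRARY polynomial `Ψ` in any number `s` of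
  arguments, where the `f_t` are read-once formulas over arbitrary polynomial gates with at most
  `k + 1` arguments, all in the same arguments `A_1, …, A_m` (subformulas in disjoint variables;
  for `A_j = x_j`: read-once formulas in all the variables), provided that the transcendence
  degree of `f_1, …, f_s` is at most `T` (for instance `s ≤ T`).

The theorem: a nonzero polynomial of degree at most `d` computed in this way does not vanish on the
explicit set `hittingSet F n d K` of at most `(((n - 1) d + 1) (d + 1)) ^ K` points of the generator
of Shpilka and Volkovich, as soon as `K ≥ k + c * min (log₂ n) b + overlapCost k T * δ`, where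
`δ` is the maximal number of overlap gates on a path, and `overlapCost` is an explicit recursive
function of `k` and `T` only. (`b` and `c` concern the base formulas: their leaves have fewer than
`2 ^ k` monomials, and their gates are affine, or depend on at most `k + 1` arguments, or have a
Newton polytope of dimension at most `k`, or have fewer than `2 ^ c` monomials; `b` is the maximal
number of gates on a path which are only of the last kind.)

So for fixed `k`, `T`, `δ` (and `c = 0` or `b` bounded) the hitting sets have polynomial size.

The proof. (1) The property of not being constant on the image of the generator with `K` seeds is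
preserved by `gate` and `prod` without loss (lowest forms along rays). (2) For an overlap gate
`P = Ψ(f_1, …, f_T)` at a base point `a` in the image at which no partial derivative of an `f_t`
vanishes, we show that boundedly many modifications of `a` make `P` nonzero: in a minimal set of
modifications which is large, a Ramsey type argument finds a large subset in which all `f_t` are
caterpillars in the same order or the reverse one. Then there is a modified variable `x_i` such
that the Jacobian matrix of the `f_t` has the same rank after `x_i = 0` and without the column of
`x_i`, and the vector field of maximal minors, which kills `P`, shows that `x_i` does not divide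
`P`, in contradiction to the minimality. (3) The case of transcendence degree `T` is reduced to
`T` algebraically independent formulas by passing to a multiple of `P`.
-/

namespace Pool.Agent.Results.MP_e2be99_lc.NestedOverlapFormulas

open MvPolynomial Pool.Agent.W2helper21.ROG Pool.Agent.W2helper21.ROT

open Classical in
/-- The explicit set of the points `∑_{l < K} y_l (L_0(u_l), …, L_{n-1}(u_l))`, where
`u_l ∈ {0, …, (n - 1) d}`, `y_l ∈ {0, …, d}` and `L_i(u) = lag n u i` are the Lagrange polynomials
on the nodes `0, …, n - 1`. -/
noncomputable def hittingSet (F : Type*) [Field F] (n d K : ℕ) : Finset (Fin n → F) :=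
  Finset.univ.image fun (s : Fin K → Fin ((n - 1) * d + 1) × Fin (d + 1)) =>
    fun i => ∑ l, (((s l).2 : ℕ) : F) * lag n (((s l).1 : ℕ) : F) i

/-- The number of seeds for one layer of overlap gates; it is a function of `k` and `T` only:
`big k 0 s = s` and `big k (T + 1) s = big k T (2 (k + 1) ^ (2 ^ (2 s)))`. -/
def overlapCost (k T : ℕ) : ℕ := big k T ((T + 1) * (T + 1))

universe u

/-- **Hitting sets for nested functions of read-once formulas.** -/
theorem result (F : Type u) [Field F] [CharZero F] (n d k c T K : ℕ) (hk : 1 ≤ k) :
    (hittingSet F n d K).card ≤ (((n - 1) * d + 1) * (d + 1)) ^ K ∧
    ∀ f : OFormula F n, f.Valid k c T →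
      k + c * min (Nat.log 2 n) (f.bigDepth k) + overlapCost k T * f.overlapDepth ≤ K →
      f.toPoly.totalDegree ≤ d → f.toPoly ≠ 0 →
      ∃ a ∈ hittingSet F n d K, eval a f.toPoly ≠ 0 := by
  classical
  constructor
  · refine Finset.card_image_le.trans ?_
    rw [Finset.card_univ, Fintype.card_fun, Fintype.card_prod, Fintype.card_fin,
      Fintype.card_fin, Fintype.card_fin]
  · intro f hval hK hd hne
    have hmem : ∀ s : Fin K → Fin ((n - 1) * d + 1) × Fin (d + 1),
        pt F n s ∈ hittingSet F n d K := by
      intro s
      rw [hittingSet, Finset.mem_image]
      exact ⟨s, Finset.mem_univ _, rfl⟩
    by_cases hv : f.toPoly.vars.Nonempty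
    · have h1 := (OFormula.nc hk f hval le_rfl hv).mono hK
      obtain ⟨a, ha, hane⟩ := h1.nz
      obtain ⟨s, hs⟩ := grid f.toPoly hd K 0 ⟨a, ha, by rwa [zero_add]⟩
      rw [zero_add] at hs
      exact ⟨_, hmem s, hs⟩
    · rw [Finset.not_nonempty_iff_eq_empty, vars_eq_empty_iff_eq_C] at hv
      refine ⟨_, hmem fun _ => (0, 0), ?_⟩
      rw [hv, eval_C]
      intro h
      rw [h, map_zero] at hv
      exact hne hv

end Pool.Agent.Results.MP_e2be99_lc.NestedOverlapFormulas
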